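import Mathlib

open MeasureTheory Complex Metric Set
open scoped Real ENNReal

namespace Pool.Agent.Lib.MP_6c36f4_an

/-- `k`-th Taylor coefficient of `φ` at `a`. -/
noncomputable def tc (k : ℕ) (φ : ℂ → ℂ) (a : ℂ) : ℂ := iteratedDeriv k φ a / (k.factorial : ℂ)

lemma tc_circle {φ : ℂ → ℂ} {a : ℂ} {h r : ℝ} (k : ℕ) (hφ : DifferentiableOn ℂ φ (ball a h))
    (hr0 : 0 < r) (hrh : r < h) :
    ENNReal.ofReal (2 * π * r ^ k) * ‖tc k φ a‖ₑ ≤
      ∫⁻ θ in Ioo (-π) π, ‖φ (circleMap a r θ)‖ₑ := by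
  have h1 : DifferentiableOn ℂ φ (closedBall a r) := hφ.mono (closedBall_subset_ball hrh)
  have h2 := DifferentiableOn.circleIntegral_one_div_sub_center_pow_smul hr0 k h1
  have h3 : (∮ z in C(a, r), (1 / (z - a) ^ (k + 1)) • φ z) =
      ∫ θ in (-π)..π, deriv (circleMap a r) θ • ((1 / (circleMap a r θ - a) ^ (k + 1)) •
        φ (circleMap a r θ)) := by
    have hper : Function.Periodic (fun θ => deriv (circleMap a r) θ •
        ((1 / (circleMap a r θ - a) ^ (k + 1)) • φ (circleMap a r θ))) (2 * π) := by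
      intro θ
      simp only [deriv_circleMap, periodic_circleMap a r θ, periodic_circleMap 0 r θ]
    have := hper.intervalIntegral_add_eq 0 (-π)
    rw [zero_add, show -π + 2 * π = π by ring] at this
    rw [← this]
    rfl
  rw [h3] at h2
  have h4 : (2 * π * I : ℂ) * tc k φ a = ∫ θ in (-π)..π, deriv (circleMap a r) θ •
      ((1 / (circleMap a r θ - a) ^ (k + 1)) • φ (circleMap a r θ)) := by
    rw [h2, tc, smul_eq_mul]; ring
  have h5 : ‖(2 * π * I : ℂ) * tc k φ a‖ₑ ≤
      ∫⁻ θ in Ioc (-π) π, ‖deriv (circleMap a r) θ •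
      ((1 / (circleMap a r θ - a) ^ (k + 1)) • φ (circleMap a r θ))‖ₑ := by
    rw [h4, intervalIntegral.integral_of_le (by linarith [Real.pi_pos])]
    exact enorm_integral_le_lintegral_enorm _
  have h6 : ∀ θ, ‖deriv (circleMap a r) θ •
      ((1 / (circleMap a r θ - a) ^ (k + 1)) • φ (circleMap a r θ))‖ₑ =
      ENNReal.ofReal ((r ^ k)⁻¹) * ‖φ (circleMap a r θ)‖ₑ := by
    intro θ
    rw [enorm_smul, enorm_smul, ← mul_assoc, ← enorm_mul, ← ofReal_norm (deriv _ _ * _)]
    congr 2
    simp only [deriv_circleMap, circleMap_sub_center, norm_mul, norm_div, norm_pow,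
      norm_circleMap_zero, norm_I, norm_one, mul_one, abs_of_pos hr0]
    field_simp
    ring
  simp_rw [h6] at h5
  rw [lintegral_const_mul' _ _ ENNReal.ofReal_ne_top] at h5
  have h7 : ‖(2 * π * I : ℂ) * tc k φ a‖ₑ = ENNReal.ofReal (2 * π) * ‖tc k φ a‖ₑ := by
    rw [enorm_mul, ← ofReal_norm]
    congr 2
    simp [abs_of_pos Real.pi_pos]
  rw [h7] at h5
  have h8 : ∫⁻ θ in Ioc (-π) π, ‖φ (circleMap a r θ)‖ₑ = ∫⁻ θ in Ioo (-π) π, ‖φ (circleMap a r θ)‖ₑ :=
    (setLIntegral_congr Ioo_ae_eq_Ioc).symm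
  rw [h8] at h5
  calc ENNReal.ofReal (2 * π * r ^ k) * ‖tc k φ a‖ₑ
      = ENNReal.ofReal (r ^ k) * (ENNReal.ofReal (2 * π) * ‖tc k φ a‖ₑ) := by
        rw [mul_comm (2 * π), ENNReal.ofReal_mul (by positivity), mul_assoc]
    _ ≤ ENNReal.ofReal (r ^ k) * (ENNReal.ofReal ((r ^ k)⁻¹) *
          ∫⁻ θ in Ioo (-π) π, ‖φ (circleMap a r θ)‖ₑ) := by gcongr
    _ = ∫⁻ θ in Ioo (-π) π, ‖φ (circleMap a r θ)‖ₑ := by
        rw [← mul_assoc, ← ENNReal.ofReal_mul (by positivity), mul_inv_cancel₀ (by positivity),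
          ENNReal.ofReal_one, one_mul]

lemma measurable_indicator_of_continuousOn {X : Type*} [TopologicalSpace X] [MeasurableSpace X]
    [BorelSpace X] {f : X → ℝ≥0∞} {s : Set X} (hs : MeasurableSet s) (hf : ContinuousOn f s) :
    Measurable (s.indicator f) := by
  classical
  rw [← piecewise_eq_indicator]
  exact hf.measurable_piecewise continuousOn_const hs

lemma tc_disc0 {φ : ℂ → ℂ} {h : ℝ} (k : ℕ) (hφ : DifferentiableOn ℂ φ (ball 0 h))
    (hh : 0 < h) :
    ENNReal.ofReal (2 * π * h ^ (k + 2) / (k + 2)) * ‖tc k φ 0‖ₑ ≤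
      ∫⁻ w in ball 0 h, ‖φ w‖ₑ := by
  set F : ℂ → ℝ≥0∞ := (ball 0 h).indicator (fun w => ‖φ w‖ₑ) with hF
  have hFm : Measurable F :=
    measurable_indicator_of_continuousOn measurableSet_ball hφ.continuousOn.enorm
  have h1 : ∫⁻ w in ball 0 h, ‖φ w‖ₑ = ∫⁻ w, F w := by
    rw [hF, lintegral_indicator measurableSet_ball]
  have hpm : Measurable (fun p : ℝ × ℝ => Complex.polarCoord.symm p) := by
    simp_rw [Complex.polarCoord_symm_apply]
    fun_prop
  rw [h1, ← Complex.lintegral_comp_polarCoord_symm]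
  rw [polarCoord_target, Measure.volume_eq_prod, ← Measure.prod_restrict]
  rw [lintegral_prod]
  · calc ENNReal.ofReal (2 * π * h ^ (k + 2) / (k + 2)) * ‖tc k φ 0‖ₑ
        = ∫⁻ r in Ioo 0 h, ENNReal.ofReal r * (ENNReal.ofReal (2 * π * r ^ k) * ‖tc k φ 0‖ₑ) := by
          have e1 : ∀ r ∈ Ioo (0:ℝ) h, ENNReal.ofReal r * (ENNReal.ofReal (2 * π * r ^ k) * ‖tc k φ 0‖ₑ)
              = ENNReal.ofReal (2 * π * r ^ (k + 1)) * ‖tc k φ 0‖ₑ := by
            intro r hr
            rw [← mul_assoc, ← ENNReal.ofReal_mul hr.1.le]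
            congr 2; ring
          rw [setLIntegral_congr_fun measurableSet_Ioo e1, lintegral_mul_const'' _ (by fun_prop)]
          congr 1
          rw [← ofReal_integral_eq_lintegral_ofReal]
          · congr 1
            rw [← integral_Ioc_eq_integral_Ioo, ← intervalIntegral.integral_of_le hh.le]
            rw [intervalIntegral.integral_const_mul, integral_pow]
            push_cast
            simp
            field_simp
            ring
          · have : IntegrableOn (fun r : ℝ => 2 * π * r ^ (k + 1)) (Icc 0 h) :=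
              Continuous.integrableOn_Icc (by fun_prop)
            exact this.mono_set Ioo_subset_Icc_self
          · filter_upwards [ae_restrict_mem measurableSet_Ioo] with r hr
            have := hr.1
            positivity
      _ ≤ ∫⁻ r in Ioo 0 h, ∫⁻ θ in Ioo (-π) π, ENNReal.ofReal r *
            F (Complex.polarCoord.symm (r, θ)) := by
          refine setLIntegral_mono' measurableSet_Ioo ?_
          intro r hr
          rw [lintegral_const_mul' _ _ ENNReal.ofReal_ne_top]
          gcongr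
          refine (tc_circle k hφ hr.1 hr.2).trans (le_of_eq ?_)
          refine setLIntegral_congr_fun measurableSet_Ioo ?_
          intro θ _
          have : Complex.polarCoord.symm (r, θ) = circleMap 0 r θ := by
            rw [Complex.polarCoord_symm_apply, circleMap_zero, exp_mul_I]
            simp
          simp only [this, hF]
          rw [indicator_of_mem]
          simp [abs_of_pos hr.1, hr.2]
      _ ≤ ∫⁻ r in Ioi 0, ∫⁻ θ in Ioo (-π) π, ENNReal.ofReal r •
            F (Complex.polarCoord.symm (r, θ)) := by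
          exact lintegral_mono_set Ioo_subset_Ioi_self
  · apply Measurable.aemeasurable
    simp only [smul_eq_mul]
    exact (ENNReal.measurable_ofReal.comp measurable_fst).mul (hFm.comp hpm)

/-- Mean value inequality on a disc with arbitrary centre. -/
lemma mean_disc {φ : ℂ → ℂ} {a : ℂ} {h : ℝ} (hφ : DifferentiableOn ℂ φ (ball a h))
    (hh : 0 < h) :
    ENNReal.ofReal (π * h ^ 2) * ‖φ a‖ₑ ≤ ∫⁻ w in ball a h, ‖φ w‖ₑ := by
  have h1 : DifferentiableOn ℂ (fun w => φ (a + w)) (ball 0 h) := by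
    refine hφ.comp (by fun_prop) ?_
    intro w hw
    simpa using hw
  have h2 := tc_disc0 0 h1 hh
  have h3 : ∫⁻ w in ball 0 h, ‖φ (a + w)‖ₑ = ∫⁻ w in ball a h, ‖φ w‖ₑ := by
    rw [← lintegral_indicator measurableSet_ball, ← lintegral_indicator measurableSet_ball,
      ← lintegral_add_left_eq_self (fun w => (ball a h).indicator (fun w => ‖φ w‖ₑ) w) a]
    congr 1
    ext w
    by_cases hw : w ∈ ball (0:ℂ) h
    · rw [indicator_of_mem hw, indicator_of_mem]
      simpa using hw
    · rw [indicator_of_notMem hw, indicator_of_notMem]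
      simpa using hw
  rw [h3] at h2
  refine le_trans (le_of_eq ?_) h2
  simp only [tc]
  simp
  congr 2
  ring

/-- Taylor coefficient in the second variable. -/
noncomputable def gk (G : ℂ × ℂ → ℂ) (k : ℕ) (z : ℂ) : ℂ := tc k (fun w => G (z, w)) 0

lemma gk_eq {G : ℂ × ℂ → ℂ} {D : Set (ℂ × ℂ)} (hG : DifferentiableOn ℂ G D)
    {s : ℝ} (hs : 0 < s) (k : ℕ) {z : ℂ} (hz : ∀ w ∈ closedBall (0:ℂ) s, (z, w) ∈ D) :
    gk G k z = ∫ θ in (0:ℝ)..(2 * π), ((2 * π * I)⁻¹ * (deriv (circleMap 0 s) θ *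
      (1 / (circleMap 0 s θ) ^ (k + 1)))) * G (z, circleMap 0 s θ) := by
  have h1 : DifferentiableOn ℂ (fun w => G (z, w)) (closedBall 0 s) := by
    refine hG.comp (by fun_prop) ?_
    intro w hw
    exact hz w hw
  have h2 := DifferentiableOn.circleIntegral_one_div_sub_center_pow_smul hs k h1
  have h3 : gk G k z = (2 * π * I)⁻¹ * ∮ (z_1 : ℂ) in C(0, s), (1 / (z_1 - 0) ^ (k + 1)) • (fun w => G (z, w)) z_1 := by
    rw [h2, gk, tc, smul_eq_mul]
    have : (2 * π * I : ℂ) ≠ 0 := two_pi_I_ne_zero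
    field_simp
  rw [h3, circleIntegral, ← intervalIntegral.integral_const_mul]
  congr 1
  ext θ
  simp only [smul_eq_mul, sub_zero]
  ring

lemma gk_differentiableOn {G : ℂ × ℂ → ℂ} {D : Set (ℂ × ℂ)} (hD : IsOpen D)
    (hG : DifferentiableOn ℂ G D) {s : ℝ} (hs : 0 < s) (k : ℕ) {U : Set ℂ} (hU : IsOpen U)
    (hUD : U ×ˢ closedBall (0:ℂ) s ⊆ D) : DifferentiableOn ℂ (gk G k) U := by
  intro z₀ hz₀
  refine DifferentiableAt.differentiableWithinAt ?_
  -- choose a closed ball inside `U`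
  obtain ⟨δ, hδ, hball⟩ : ∃ δ > 0, closedBall z₀ (2 * δ) ⊆ U := by
    obtain ⟨ε, hε, hb⟩ := Metric.nhds_basis_closedBall.mem_iff.mp (hU.mem_nhds hz₀)
    exact ⟨ε / 2, by positivity, by convert hb using 2; ring⟩
  set K : Set (ℂ × ℂ) := closedBall z₀ (2 * δ) ×ˢ sphere (0:ℂ) s with hK
  have hKD : K ⊆ D := fun x hx => hUD ⟨hball hx.1, sphere_subset_closedBall hx.2⟩
  have hKc : IsCompact K := (isCompact_closedBall _ _).prod (isCompact_sphere _ _)
  obtain ⟨M, hM⟩ := hKc.exists_bound_of_continuousOn (hG.continuousOn.mono hKD)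
  set c : ℝ → ℂ := fun θ => ((2 * π * I)⁻¹ * (deriv (circleMap 0 s) θ *
      (1 / (circleMap 0 s θ) ^ (k + 1)))) with hc
  have hcirc : ∀ θ, circleMap 0 s θ ≠ 0 := fun θ => circleMap_ne_center hs.ne'
  have hcc : Continuous c := by
    simp only [hc, deriv_circleMap]
    refine continuous_const.mul (Continuous.mul (by fun_prop) ?_)
    exact Continuous.div continuous_const (by fun_prop) (fun θ => pow_ne_zero _ (hcirc θ))
  have hsph : ∀ θ, circleMap 0 s θ ∈ sphere (0:ℂ) s := fun θ => circleMap_mem_sphere 0 hs.le θ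
  -- continuity in `θ`
  have hcont : ∀ z ∈ U, Continuous (fun θ : ℝ => G (z, circleMap 0 s θ)) := by
    intro z hz
    refine hG.continuousOn.comp_continuous (by fun_prop) ?_
    intro θ
    exact hUD ⟨hz, sphere_subset_closedBall (hsph θ)⟩
  -- differentiability in `z`
  have hdiff : ∀ z ∈ U, ∀ θ, DifferentiableAt ℂ (fun z' => G (z', circleMap 0 s θ)) z := by
    intro z hz θ
    have hmem : (z, circleMap 0 s θ) ∈ D := hUD ⟨hz, sphere_subset_closedBall (hsph θ)⟩
    have h1 : DifferentiableAt ℂ G (z, circleMap 0 s θ) := hG.differentiableAt (hD.mem_nhds hmem)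
    exact h1.comp z (f := fun z' => (z', circleMap 0 s θ)) (by fun_prop)
  set F' : ℂ → ℝ → ℂ := fun z θ => c θ * deriv (fun z' => G (z', circleMap 0 s θ)) z with hF'
  have hderiv_bound : ∀ θ, ∀ z ∈ ball z₀ δ, ‖deriv (fun z' => G (z', circleMap 0 s θ)) z‖ ≤ M / δ := by
    intro θ z hz
    refine norm_deriv_le_of_forall_mem_sphere_norm_le hδ ?_ ?_
    · refine DifferentiableOn.diffContOnCl ?_
      rw [closure_ball _ hδ.ne']
      intro z' hz'
      refine (hdiff z' (hball ?_) θ).differentiableWithinAt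
      have := mem_closedBall.mp hz'
      have := mem_ball.mp hz
      refine mem_closedBall.mpr ?_
      linarith [dist_triangle z' z z₀]
    · intro z' hz'
      refine hM _ ⟨?_, hsph θ⟩
      have := mem_sphere.mp hz'
      have := mem_ball.mp hz
      refine mem_closedBall.mpr ?_
      linarith [dist_triangle z' z z₀]
  have hball2 : ball z₀ δ ⊆ U := fun z hz => hball (mem_closedBall.mpr (by
    have := mem_ball.mp hz; linarith))
  have key := (intervalIntegral.hasDerivAt_integral_of_dominated_loc_of_deriv_le (μ := volume)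
    (a := 0) (b := 2 * π) (F := fun z θ => c θ * G (z, circleMap 0 s θ)) (F' := F')
    (x₀ := z₀) (s := ball z₀ δ) (bound := fun θ => ‖c θ‖ * (M / δ)) (ball_mem_nhds _ hδ) ?_ ?_ ?_ ?_ ?_ ?_).2
  · have hev : gk G k =ᶠ[nhds z₀] fun z => ∫ θ in (0:ℝ)..(2 * π), c θ * G (z, circleMap 0 s θ) := by
      filter_upwards [hU.mem_nhds hz₀] with z hz
      exact gk_eq hG hs k (fun w hw => hUD ⟨hz, hw⟩)
    exact (key.congr_of_eventuallyEq hev).differentiableAt
  · filter_upwards [hU.mem_nhds hz₀] with z hz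
    exact (hcc.mul (hcont z hz)).aestronglyMeasurable
  · exact (hcc.mul (hcont z₀ hz₀)).intervalIntegrable _ _
  · refine AEStronglyMeasurable.mul hcc.aestronglyMeasurable ?_
    -- derivative is a limit of difference quotients
    have hlim : ∀ θ, Filter.Tendsto (fun n : ℕ => ((δ / (n + 1) : ℝ) : ℂ)⁻¹ *
        (G (z₀ + ((δ / (n + 1) : ℝ) : ℂ), circleMap 0 s θ) - G (z₀, circleMap 0 s θ))) Filter.atTop
        (nhds (deriv (fun z' => G (z', circleMap 0 s θ)) z₀)) := by
      intro θ
      have h1 := (hdiff z₀ hz₀ θ).hasDerivAt.tendsto_slope_zero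
      have h2 : Filter.Tendsto (fun n : ℕ => ((δ / (n + 1) : ℝ) : ℂ)) Filter.atTop (nhdsWithin 0 {0}ᶜ) := by
        refine tendsto_nhdsWithin_iff.mpr ⟨?_, ?_⟩
        · have : Filter.Tendsto (fun n : ℕ => (δ / (n + 1) : ℝ)) Filter.atTop (nhds 0) := by
            have := (tendsto_one_div_add_atTop_nhds_zero_nat (𝕜 := ℝ)).const_mul δ
            simpa [div_eq_mul_inv] using this
          have h3 := (Complex.continuous_ofReal.tendsto 0).comp this
          simpa [Function.comp_def] using h3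
        · refine Filter.Eventually.of_forall ?_
          intro n
          simp only [mem_compl_iff, mem_singleton_iff, ofReal_eq_zero]
          positivity
      have h4 := h1.comp h2
      simpa [Function.comp_def] using h4
    refine aestronglyMeasurable_of_tendsto_ae Filter.atTop (f := fun (n : ℕ) θ => ((δ / (n + 1) : ℝ) : ℂ)⁻¹ *
        (G (z₀ + ((δ / (n + 1) : ℝ) : ℂ), circleMap 0 s θ) - G (z₀, circleMap 0 s θ))) ?_ ?_
    · intro n
      refine Continuous.aestronglyMeasurable ?_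
      refine continuous_const.mul ((hcont _ (hball ?_)).sub (hcont z₀ hz₀))
      rw [mem_closedBall, dist_eq_norm, add_sub_cancel_left, norm_real, Real.norm_of_nonneg (by positivity)]
      have : δ / (n + 1) ≤ δ := div_le_self hδ.le (by linarith [n.cast_nonneg (α := ℝ)])
      linarith
    · exact Filter.Eventually.of_forall hlim
  · refine Filter.Eventually.of_forall ?_
    intro θ _ z hz
    simp only [hF', norm_mul]
    gcongr
    exact hderiv_bound θ z hz
  · exact (hcc.norm.mul continuous_const).intervalIntegrable _ _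
  · refine Filter.Eventually.of_forall ?_
    intro θ _ z hz
    exact ((hdiff z (hball2 hz) θ).hasDerivAt).const_mul (c θ)

/-- The key estimate on a polydisc. -/
lemma key_polydisc {G : ℂ × ℂ → ℂ} {D : Set (ℂ × ℂ)} (hD : IsOpen D)
    (hG : DifferentiableOn ℂ G D) (k : ℕ) {a : ℂ} {ρ h : ℝ} (hρ : 0 < ρ) (hh : 0 < h)
    (hP : ball a ρ ×ˢ ball (0:ℂ) h ⊆ D) :
    ENNReal.ofReal (π * ρ ^ 2) * (ENNReal.ofReal (2 * π * h ^ (k + 2) / (k + 2)) * ‖gk G k a‖ₑ) ≤
      ∫⁻ x in ball a ρ ×ˢ ball (0:ℂ) h, ‖G x‖ₑ := by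
  have hgd : DifferentiableOn ℂ (gk G k) (ball a ρ) := by
    refine gk_differentiableOn hD hG (s := h / 2) (by positivity) k isOpen_ball ?_
    refine Subset.trans ?_ hP
    exact prod_mono_right (closedBall_subset_ball (by linarith))
  have h1 := mean_disc hgd hρ
  rw [Measure.volume_eq_prod, ← Measure.prod_restrict, lintegral_prod]
  · calc _ = ENNReal.ofReal (2 * π * h ^ (k + 2) / (k + 2)) * (ENNReal.ofReal (π * ρ ^ 2) * ‖gk G k a‖ₑ) := by
          ring
      _ ≤ ENNReal.ofReal (2 * π * h ^ (k + 2) / (k + 2)) * ∫⁻ z in ball a ρ, ‖gk G k z‖ₑ := by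
          gcongr
      _ = ∫⁻ z in ball a ρ, ENNReal.ofReal (2 * π * h ^ (k + 2) / (k + 2)) * ‖gk G k z‖ₑ := by
          rw [lintegral_const_mul' _ _ ENNReal.ofReal_ne_top]
      _ ≤ ∫⁻ z in ball a ρ, ∫⁻ w in ball 0 h, ‖G (z, w)‖ₑ := by
          refine setLIntegral_mono' measurableSet_ball ?_
          intro z hz
          refine tc_disc0 k ?_ hh
          refine hG.comp (by fun_prop) ?_
          intro w hw
          exact hP ⟨hz, hw⟩
  · rw [Measure.prod_restrict]
    refine ContinuousOn.aemeasurable ?_ (measurableSet_ball.prod measurableSet_ball)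
    exact (hG.continuousOn.mono hP).enorm

end Pool.Agent.Lib.MP_6c36f4_an
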