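import Mathlib
import Pool.Agent.Lib.MP_6c36f4_an.Basic

open MeasureTheory Complex Metric Set
open scoped Real ENNReal

namespace Pool.Agent.Lib.MP_6c36f4_an

/-- Pointwise bound for the Taylor coefficients by the `L²` norm. -/
lemma gk_bound {G : ℂ × ℂ → ℂ} {D : Set (ℂ × ℂ)} (hD : IsOpen D)
    (hG : DifferentiableOn ℂ G D) {M : ℝ} (hM0 : 0 ≤ M)
    (hM : eLpNorm G 2 (volume.restrict D) ≤ ENNReal.ofReal M)
    (k : ℕ) {a : ℂ} {ρ h : ℝ} (hρ : 0 < ρ) (hh : 0 < h)
    (hP : ball a ρ ×ˢ ball (0:ℂ) h ⊆ D) :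
    ‖gk G k a‖ ≤ M * (k + 2) / (2 * π * ρ * h ^ (k + 1)) := by
  set P : Set (ℂ × ℂ) := ball a ρ ×ˢ ball (0:ℂ) h with hPdef
  have hPm : MeasurableSet P := measurableSet_ball.prod measurableSet_ball
  have hvol : volume P = ENNReal.ofReal ((π * ρ * h) ^ 2) := by
    rw [hPdef, Measure.volume_eq_prod, Measure.prod_prod, Complex.volume_ball, Complex.volume_ball]
    rw [← ENNReal.ofReal_pow hρ.le, ← ENNReal.ofReal_pow hh.le]
    have : ((NNReal.pi : NNReal) : ℝ≥0∞) = ENNReal.ofReal π := by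
      rw [← NNReal.coe_real_pi, ENNReal.ofReal_coe_nnreal]
    rw [this, ← ENNReal.ofReal_mul (by positivity), ← ENNReal.ofReal_mul (by positivity),
      ← ENNReal.ofReal_mul (by positivity)]
    congr 1; ring
  have h1 := key_polydisc hD hG k hρ hh hP
  have hGm : AEStronglyMeasurable G (volume.restrict P) :=
    (hG.continuousOn.mono hP).aestronglyMeasurable hPm
  have h2 : ∫⁻ x in P, ‖G x‖ₑ ≤ ENNReal.ofReal M * ENNReal.ofReal (π * ρ * h) := by
    calc ∫⁻ x in P, ‖G x‖ₑ = eLpNorm G 1 (volume.restrict P) := by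
          rw [eLpNorm_one_eq_lintegral_enorm]
      _ ≤ eLpNorm G 2 (volume.restrict P) *
            (volume.restrict P) univ ^ (1 / (1:ℝ≥0∞).toReal - 1 / (2:ℝ≥0∞).toReal) :=
          eLpNorm_le_eLpNorm_mul_rpow_measure_univ (by norm_num) hGm
      _ ≤ ENNReal.ofReal M * ENNReal.ofReal (π * ρ * h) := by
          gcongr
          · exact (eLpNorm_mono_measure _ (Measure.restrict_mono hP le_rfl)).trans hM
          · rw [Measure.restrict_apply_univ, hvol]
            rw [ENNReal.ofReal_rpow_of_nonneg (by positivity) (by norm_num)]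
            apply ENNReal.ofReal_le_ofReal
            norm_num
            rw [← Real.rpow_natCast, ← Real.rpow_mul (by positivity)]
            norm_num
  have h3 := h1.trans h2
  rw [← mul_assoc, ← ENNReal.ofReal_mul (by positivity), ← ENNReal.ofReal_mul hM0,
    ← ofReal_norm, ← ENNReal.ofReal_mul (by positivity),
    ENNReal.ofReal_le_ofReal_iff (by positivity)] at h3
  rw [le_div_iff₀ (by positivity)]
  have h4 : π * ρ ^ 2 * (2 * π * h ^ (k + 2) / (k + 2)) * ‖gk G k a‖ =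
      (‖gk G k a‖ * (2 * π * ρ * h ^ (k + 1))) * (π * ρ * h / (k + 2)) := by
    field_simp
    ring
  rw [h4] at h3
  have h5 : M * (π * ρ * h) = (M * (k + 2)) * (π * ρ * h / (k + 2)) := by
    field_simp
  rw [h5] at h3
  exact le_of_mul_le_mul_right h3 (by positivity)

/-- An entire function all of whose high derivatives at `0` vanish and which tends to `0` along the
natural numbers is zero. -/
lemma entire_zero {f : ℂ → ℂ} (hf : Differentiable ℂ f) {N : ℕ}
    (hN : ∀ m, N ≤ m → iteratedDeriv m f 0 = 0)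
    (hlim : Filter.Tendsto (fun n : ℕ => f n) Filter.atTop (nhds 0)) (z : ℂ) : f z = 0 := by
  classical
  set P : Polynomial ℂ := ∑ m ∈ Finset.range N,
    Polynomial.C ((m.factorial : ℂ)⁻¹ * iteratedDeriv m f 0) * Polynomial.X ^ m with hPdef
  have hP : ∀ z, f z = P.eval z := by
    intro z
    have h1 := Complex.hasSum_taylorSeries_of_entire hf 0 z
    have h2 : HasSum (fun n : ℕ ↦ (n.factorial : ℂ)⁻¹ • (z - 0) ^ n • iteratedDeriv n f 0)
        (∑ n ∈ Finset.range N, (n.factorial : ℂ)⁻¹ • (z - 0) ^ n • iteratedDeriv n f 0) := by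
      refine hasSum_sum_of_ne_finset_zero ?_
      intro m hm
      rw [hN m (by simpa using hm)]
      simp
    rw [h1.unique h2, hPdef, Polynomial.eval_finsetSum]
    refine Finset.sum_congr rfl ?_
    intro m _
    simp
    ring
  by_cases hdeg : 0 < P.degree
  · exfalso
    have h1 : Filter.Tendsto (fun n : ℕ => ‖P.eval (n : ℂ)‖) Filter.atTop Filter.atTop := by
      refine Polynomial.tendsto_norm_atTop P hdeg ?_
      simp only [Complex.norm_natCast]
      exact tendsto_natCast_atTop_atTop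
    have h2 : Filter.Tendsto (fun n : ℕ => ‖P.eval (n : ℂ)‖) Filter.atTop (nhds 0) := by
      have := hlim.norm
      simpa [hP] using this
    exact not_tendsto_nhds_of_tendsto_atTop h1 0 h2
  · have h1 := Polynomial.eq_C_of_degree_le_zero (not_lt.mp hdeg)
    have h2 : ∀ z, f z = P.coeff 0 := by
      intro z
      rw [hP z]
      conv_lhs => rw [h1]
      simp
    have h3 : Filter.Tendsto (fun n : ℕ => f n) Filter.atTop (nhds (P.coeff 0)) := by
      simp_rw [h2]; exact tendsto_const_nhds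
    rw [h2 z, tendsto_nhds_unique h3 hlim]

/-! ### The domain in `ℂ × ℂ` -/

/-- base polydiscs -/
def PA (n : ℕ) : Set (ℂ × ℂ) := ball 0 ((16:ℝ) ^ n) ×ˢ ball 0 (((8:ℝ) ^ n)⁻¹)

/-- spikes -/
def PB (n : ℕ) : Set (ℂ × ℂ) := ball (n : ℂ) (((32:ℝ) ^ n * (n + 1))⁻¹) ×ˢ ball 0 ((4:ℝ) ^ n)

/-- the domain, as a subset of `ℂ × ℂ` -/
def DD : Set (ℂ × ℂ) := (⋃ n, PA n) ∪ (⋃ n, PB n)

lemma PA_open (n : ℕ) : IsOpen (PA n) := isOpen_ball.prod isOpen_ball
lemma PB_open (n : ℕ) : IsOpen (PB n) := isOpen_ball.prod isOpen_ball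
lemma DD_open : IsOpen DD := (isOpen_iUnion PA_open).union (isOpen_iUnion PB_open)
lemma PA_sub (n : ℕ) : PA n ⊆ DD := fun _ hx => Or.inl (mem_iUnion.mpr ⟨n, hx⟩)
lemma PB_sub (n : ℕ) : PB n ⊆ DD := fun _ hx => Or.inr (mem_iUnion.mpr ⟨n, hx⟩)

lemma exists_radius (z : ℂ) : ∃ n : ℕ, ‖z‖ < (16:ℝ) ^ n / 4 := by
  obtain ⟨n, hn⟩ := pow_unbounded_of_one_lt (4 * ‖z‖) (by norm_num : (1:ℝ) < 16)
  exact ⟨n, by linarith⟩

section coeff
variable {G : ℂ × ℂ → ℂ} (hG : DifferentiableOn ℂ G DD) {M : ℝ} (hM0 : 0 ≤ M)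
  (hM : eLpNorm G 2 (volume.restrict DD) ≤ ENNReal.ofReal M)

include hG in
lemma gk_entire (k : ℕ) : Differentiable ℂ (gk G k) := by
  intro z
  obtain ⟨n, hn⟩ := exists_radius z
  have h1 : DifferentiableOn ℂ (gk G k) (ball 0 ((16:ℝ) ^ n)) := by
    refine gk_differentiableOn DD_open hG (s := ((8:ℝ) ^ n)⁻¹ / 2) (by positivity) k isOpen_ball ?_
    refine Subset.trans ?_ (PA_sub n)
    exact prod_mono_right (closedBall_subset_ball (by
      have : (0:ℝ) < ((8:ℝ) ^ n)⁻¹ := by positivity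
      linarith))
  refine h1.differentiableAt (isOpen_ball.mem_nhds ?_)
  have : (0:ℝ) < (16:ℝ) ^ n := by positivity
  simp only [mem_ball, dist_zero_right]
  linarith

include hG hM0 hM in
lemma gk_boundA (k n : ℕ) {a : ℂ} (ha : ‖a‖ ≤ (16:ℝ) ^ n / 2) :
    ‖gk G k a‖ ≤ M * (k + 2) / π * ((8:ℝ) ^ (k + 1) / 16) ^ n := by
  have h1 := gk_bound DD_open hG hM0 hM k (a := a) (ρ := (16:ℝ) ^ n / 2) (h := ((8:ℝ) ^ n)⁻¹)
    (by positivity) (by positivity) ?_
  · refine h1.trans (le_of_eq ?_)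
    have e1 : (((8:ℝ) ^ n)⁻¹) ^ (k + 1) = (((8:ℝ) ^ (k + 1)) ^ n)⁻¹ := by
      rw [inv_pow, ← pow_mul, ← pow_mul, mul_comm]
    rw [e1, div_pow]
    field_simp
  · refine Subset.trans ?_ (PA_sub n)
    refine prod_mono_left ?_
    intro z hz
    have := mem_ball.mp hz
    simp only [mem_ball, dist_zero_right]
    calc ‖z‖ = ‖(z - a) + a‖ := by ring_nf
      _ ≤ ‖z - a‖ + ‖a‖ := norm_add_le _ _
      _ < (16:ℝ) ^ n := by rw [← dist_eq_norm]; linarith

include hG hM0 hM in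
lemma gk_boundB (k n : ℕ) :
    ‖gk G k n‖ ≤ M * (k + 2) / (2 * π) * ((n + 1) * (32 / (4:ℝ) ^ (k + 1)) ^ n) := by
  have h1 := gk_bound DD_open hG hM0 hM k (a := (n:ℂ)) (ρ := ((32:ℝ) ^ n * (n + 1))⁻¹) (h := (4:ℝ) ^ n)
    (by positivity) (by positivity) (PB_sub n)
  refine h1.trans (le_of_eq ?_)
  have e1 : ((4:ℝ) ^ n) ^ (k + 1) = ((4:ℝ) ^ (k + 1)) ^ n := by
      rw [← pow_mul, ← pow_mul, mul_comm]
  rw [e1, div_pow]
  field_simp

include hG hM0 hM in
lemma gk_iteratedDeriv_zero (k m : ℕ) (hm : k ≤ m) (c : ℂ) :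
    iteratedDeriv m (gk G k) c = 0 := by
  have hent := gk_entire hG k
  obtain ⟨n₀, hn₀⟩ := exists_radius c
  set q : ℝ := (8:ℝ) ^ (k + 1) / 16 ^ (m + 1) with hq
  have hq0 : 0 ≤ q := by positivity
  have hq1 : q < 1 := by
    rw [hq, div_lt_one (by positivity)]
    calc (8:ℝ) ^ (k + 1) < 16 ^ (k + 1) := pow_lt_pow_left₀ (by norm_num) (by norm_num) (by omega)
      _ ≤ 16 ^ (m + 1) := pow_le_pow_right₀ (by norm_num) (by omega)
  have hbound : ∀ n, n₀ ≤ n → ‖iteratedDeriv m (gk G k) c‖ ≤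
      (m.factorial * (M * (k + 2) / π) * 4 ^ m) * q ^ n := by
    intro n hn
    have hcn : ‖c‖ ≤ (16:ℝ) ^ n / 4 := by
      have : (16:ℝ) ^ n₀ ≤ 16 ^ n := pow_le_pow_right₀ (by norm_num) hn
      linarith
    have h1 := norm_iteratedDeriv_le_of_forall_mem_sphere_norm_le (c := c) (R := (16:ℝ) ^ n / 4)
      (C := M * (k + 2) / π * ((8:ℝ) ^ (k + 1) / 16) ^ n) (f := gk G k) m (by positivity)
      hent.diffContOnCl (by
        intro z hz
        refine gk_boundA hG hM0 hM k n ?_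
        have := mem_sphere.mp hz
        rw [dist_eq_norm] at this
        calc ‖z‖ = ‖(z - c) + c‖ := by ring_nf
          _ ≤ ‖z - c‖ + ‖c‖ := norm_add_le _ _
          _ ≤ (16:ℝ) ^ n / 2 := by linarith)
    refine h1.trans (le_of_eq ?_)
    have e1 : q ^ n = ((8:ℝ) ^ (k + 1)) ^ n / (16 ^ n * (16 ^ n) ^ m) := by
      rw [hq, div_pow]
      congr 1
      rw [← pow_mul, ← pow_mul, ← pow_add]
      congr 1
      ring
    rw [e1, div_pow, div_pow]
    field_simp
  have hlim : Filter.Tendsto (fun n : ℕ => (m.factorial * (M * (k + 2) / π) * 4 ^ m) * q ^ n)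
      Filter.atTop (nhds 0) := by
    have := (tendsto_pow_atTop_nhds_zero_of_lt_one hq0 hq1).const_mul
      (m.factorial * (M * (k + 2) / π) * 4 ^ m)
    simpa using this
  have h2 : ‖iteratedDeriv m (gk G k) c‖ ≤ 0 := by
    refine ge_of_tendsto hlim ?_
    filter_upwards [Filter.eventually_ge_atTop n₀] with n hn
    exact hbound n hn
  exact norm_le_zero_iff.mp h2

include hG hM0 hM in
lemma gk_zero (z : ℂ) : gk G 0 z = 0 := by
  have := gk_iteratedDeriv_zero hG hM0 hM 0 0 le_rfl z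
  simpa using this

include hG hM0 hM in
lemma gk_one (z : ℂ) : gk G 1 z = gk G 1 0 := by
  refine is_const_of_deriv_eq_zero (gk_entire hG 1) ?_ z 0
  intro c
  have := gk_iteratedDeriv_zero hG hM0 hM 1 1 le_rfl c
  simpa using this

include hG hM0 hM in
lemma gk_two (k : ℕ) (hk : 2 ≤ k) (z : ℂ) : gk G k z = 0 := by
  refine entire_zero (gk_entire hG k) (N := k)
    (fun m hm => gk_iteratedDeriv_zero hG hM0 hM k m hm 0) ?_ z
  rw [tendsto_zero_iff_norm_tendsto_zero]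
  have hlim : Filter.Tendsto (fun n : ℕ => M * (k + 2) / (2 * π) *
      ((n + 1) * (32 / (4:ℝ) ^ (k + 1)) ^ n)) Filter.atTop (nhds 0) := by
    set q : ℝ := 32 / (4:ℝ) ^ (k + 1) with hq
    have hq0 : 0 ≤ q := by positivity
    have hq1 : q < 1 := by
      rw [hq, div_lt_one (by positivity)]
      calc (32:ℝ) < 4 ^ 3 := by norm_num
        _ ≤ 4 ^ (k + 1) := pow_le_pow_right₀ (by norm_num) (by omega)
    have h1 := tendsto_self_mul_const_pow_of_lt_one hq0 hq1
    have h2 := tendsto_pow_atTop_nhds_zero_of_lt_one hq0 hq1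
    have h3 := (h1.add h2).const_mul (M * (k + 2) / (2 * π))
    simp only [add_zero, mul_zero] at h3
    refine h3.congr ?_
    intro n
    ring
  refine squeeze_zero (fun n => norm_nonneg _) (fun n => gk_boundB hG hM0 hM k n) hlim

include hG hM0 hM in
/-- The Bergman space of `DD` is one-dimensional. -/
lemma bergman_DD {x : ℂ × ℂ} (hx : x ∈ DD) : G x = gk G 1 0 * x.2 := by
  obtain ⟨z, w⟩ := x
  obtain ⟨s, hs, hws⟩ : ∃ s : ℝ, (∀ w' ∈ ball (0:ℂ) s, (z, w') ∈ DD) ∧ w ∈ ball (0:ℂ) s := by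
    rcases hx with hx | hx
    · obtain ⟨n, hn⟩ := mem_iUnion.mp hx
      exact ⟨_, fun w' hw' => PA_sub n ⟨hn.1, hw'⟩, hn.2⟩
    · obtain ⟨n, hn⟩ := mem_iUnion.mp hx
      exact ⟨_, fun w' hw' => PB_sub n ⟨hn.1, hw'⟩, hn.2⟩
  have h1 : DifferentiableOn ℂ (fun w' => G (z, w')) (ball 0 s) := by
    refine hG.comp (by fun_prop) ?_
    intro w' hw'
    exact hs w' hw'
  have h2 := Complex.hasSum_taylorSeries_on_ball h1 hws
  have h3 : HasSum (fun n : ℕ ↦ (n.factorial : ℂ)⁻¹ • (w - 0) ^ n •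
      iteratedDeriv n (fun w' => G (z, w')) 0) (gk G 1 0 * w) := by
    have h4 : (fun n : ℕ ↦ (n.factorial : ℂ)⁻¹ • (w - 0) ^ n •
      iteratedDeriv n (fun w' => G (z, w')) 0) = fun n => gk G n z * w ^ n := by
      ext n
      simp only [gk, tc, smul_eq_mul, sub_zero]
      ring
    rw [h4]
    have h5 : gk G 1 0 * w = gk G 1 z * w ^ 1 := by rw [gk_one hG hM0 hM z, pow_one]
    rw [h5]
    refine hasSum_single 1 ?_
    intro n hn
    rcases Nat.lt_or_ge n 2 with h | h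
    · have : n = 0 := by omega
      rw [this, gk_zero hG hM0 hM z, zero_mul]
    · rw [gk_two hG hM0 hM n h z, zero_mul]
  exact h2.unique h3

end coeff

end Pool.Agent.Lib.MP_6c36f4_an
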