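import Mathlib
import Pool.Agent.Lib.MP_6c36f4_an.Domain

open MeasureTheory Complex Metric Set
open scoped Real ENNReal

namespace Pool.Agent.Lib.MP_6c36f4_an

lemma volume_polydisc (a b : ℂ) {ρ h : ℝ} (hρ : 0 ≤ ρ) (hh : 0 ≤ h) :
    volume (ball a ρ ×ˢ ball b h) = ENNReal.ofReal ((π * ρ * h) ^ 2) := by
  rw [Measure.volume_eq_prod, Measure.prod_prod, Complex.volume_ball, Complex.volume_ball]
  rw [← ENNReal.ofReal_pow hρ, ← ENNReal.ofReal_pow hh]
  have : ((NNReal.pi : NNReal) : ℝ≥0∞) = ENNReal.ofReal π := by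
    rw [← NNReal.coe_real_pi, ENNReal.ofReal_coe_nnreal]
  rw [this, ← ENNReal.ofReal_mul (by positivity), ← ENNReal.ofReal_mul (by positivity),
    ← ENNReal.ofReal_mul (by positivity)]
  congr 1; ring

lemma lintegral_polydisc_le (a : ℂ) {ρ h p : ℝ} (hρ : 0 ≤ ρ) (hh : 0 ≤ h) (hp : 0 ≤ p) :
    ∫⁻ x in ball a ρ ×ˢ ball (0:ℂ) h, ‖x.2‖ₑ ^ p ≤ ENNReal.ofReal (h ^ p * (π * ρ * h) ^ 2) := by
  calc ∫⁻ x in ball a ρ ×ˢ ball (0:ℂ) h, ‖x.2‖ₑ ^ p
      ≤ ∫⁻ x in ball a ρ ×ˢ ball (0:ℂ) h, ENNReal.ofReal (h ^ p) := by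
        refine setLIntegral_mono' (measurableSet_ball.prod measurableSet_ball) ?_
        intro x hx
        have h2 : ‖x.2‖ < h := by simpa using hx.2
        rw [← ofReal_norm, ENNReal.ofReal_rpow_of_nonneg (norm_nonneg _) hp]
        exact ENNReal.ofReal_le_ofReal (Real.rpow_le_rpow (norm_nonneg _) h2.le hp)
    _ = ENNReal.ofReal (h ^ p * (π * ρ * h) ^ 2) := by
        rw [setLIntegral_const, volume_polydisc a 0 hρ hh, ← ENNReal.ofReal_mul (by positivity)]

lemma lintegral_DD_lt_top {p : ℝ} (hp1 : 1 ≤ p) (hp3 : p ≤ 3) :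
    ∫⁻ x in DD, ‖x.2‖ₑ ^ p < ∞ := by
  have hA : ∀ n, ∫⁻ x in PA n, ‖x.2‖ₑ ^ p ≤ ENNReal.ofReal (π ^ 2 * (1 / 2) ^ n) := by
    intro n
    refine (lintegral_polydisc_le 0 (by positivity) (by positivity) (by linarith)).trans ?_
    apply ENNReal.ofReal_le_ofReal
    have h1 : (((8:ℝ) ^ n)⁻¹) ^ p ≤ ((8:ℝ) ^ n)⁻¹ := by
      have h8 : ((8:ℝ) ^ n)⁻¹ ≤ 1 := inv_le_one_of_one_le₀ (one_le_pow₀ (by norm_num))
      calc (((8:ℝ) ^ n)⁻¹) ^ p ≤ (((8:ℝ) ^ n)⁻¹) ^ (1:ℝ) :=
            Real.rpow_le_rpow_of_exponent_ge (by positivity) h8 hp1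
        _ = _ := Real.rpow_one _
    calc (((8:ℝ) ^ n)⁻¹) ^ p * (π * (16:ℝ) ^ n * ((8:ℝ) ^ n)⁻¹) ^ 2
        ≤ ((8:ℝ) ^ n)⁻¹ * (π * (16:ℝ) ^ n * ((8:ℝ) ^ n)⁻¹) ^ 2 := by gcongr
      _ = π ^ 2 * (1 / 2) ^ n := by
        have e1 : (16:ℝ) ^ n = 8 ^ n * 2 ^ n := by rw [← mul_pow]; norm_num
        have e2 : (8:ℝ) ^ n = (2 ^ n) ^ 3 := by rw [← pow_mul, mul_comm, pow_mul]; norm_num
        rw [e1, e2, one_div, inv_pow]
        have : (2:ℝ) ^ n ≠ 0 := by positivity
        field_simp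
  have hB : ∀ n, ∫⁻ x in PB n, ‖x.2‖ₑ ^ p ≤ ENNReal.ofReal (π ^ 2 * (1 / ((n : ℝ) + 1) ^ 2)) := by
    intro n
    refine (lintegral_polydisc_le _ (by positivity) (by positivity) (by linarith)).trans ?_
    apply ENNReal.ofReal_le_ofReal
    have h1 : ((4:ℝ) ^ n) ^ p ≤ ((4:ℝ) ^ n) ^ 3 := by
      have h8 : 1 ≤ (4:ℝ) ^ n := one_le_pow₀ (by norm_num)
      calc ((4:ℝ) ^ n) ^ p ≤ ((4:ℝ) ^ n) ^ (3:ℝ) :=
            Real.rpow_le_rpow_of_exponent_le h8 hp3
        _ = _ := by norm_cast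
    calc ((4:ℝ) ^ n) ^ p * (π * (((32:ℝ) ^ n * (n + 1))⁻¹) * (4:ℝ) ^ n) ^ 2
        ≤ ((4:ℝ) ^ n) ^ 3 * (π * (((32:ℝ) ^ n * (n + 1))⁻¹) * (4:ℝ) ^ n) ^ 2 := by gcongr
      _ = π ^ 2 * (1 / ((n : ℝ) + 1) ^ 2) := by
        have e1 : (32:ℝ) ^ n = (2 ^ n) ^ 5 := by rw [← pow_mul, mul_comm, pow_mul]; norm_num
        have e2 : (4:ℝ) ^ n = (2 ^ n) ^ 2 := by rw [← pow_mul, mul_comm, pow_mul]; norm_num
        rw [e1, e2]
        have : (2:ℝ) ^ n ≠ 0 := by positivity
        field_simp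
  have hsA : Summable (fun n : ℕ => π ^ 2 * (1 / 2 : ℝ) ^ n) :=
    (summable_geometric_of_lt_one (by norm_num) (by norm_num)).mul_left _
  have hsB : Summable (fun n : ℕ => π ^ 2 * (1 / ((n : ℝ) + 1) ^ 2)) := by
    refine Summable.mul_left _ ?_
    have := (summable_nat_add_iff (f := fun n : ℕ => 1 / (n : ℝ) ^ 2) 1).mpr
      (Real.summable_one_div_nat_pow.mpr (by norm_num))
    simpa using this
  calc ∫⁻ x in DD, ‖x.2‖ₑ ^ p
      ≤ (∫⁻ x in (⋃ n, PA n), ‖x.2‖ₑ ^ p) + (∫⁻ x in (⋃ n, PB n), ‖x.2‖ₑ ^ p) :=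
        lintegral_union_le _ _ _
    _ ≤ (∑' n, ∫⁻ x in PA n, ‖x.2‖ₑ ^ p) + (∑' n, ∫⁻ x in PB n, ‖x.2‖ₑ ^ p) :=
        add_le_add (lintegral_iUnion_le _ _) (lintegral_iUnion_le _ _)
    _ ≤ (∑' n : ℕ, ENNReal.ofReal (π ^ 2 * (1 / 2) ^ n)) +
        (∑' n : ℕ, ENNReal.ofReal (π ^ 2 * (1 / ((n : ℝ) + 1) ^ 2))) :=
        add_le_add (ENNReal.tsum_le_tsum hA) (ENNReal.tsum_le_tsum hB)
    _ < ∞ := by
        rw [← ENNReal.ofReal_tsum_of_nonneg (fun n => by positivity) hsA,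
          ← ENNReal.ofReal_tsum_of_nonneg (fun n => by positivity) hsB]
        exact ENNReal.add_lt_top.mpr ⟨ENNReal.ofReal_lt_top, ENNReal.ofReal_lt_top⟩

/-! ### Transfer to `Fin 2 → ℂ` -/

/-- the domain in `ℂ²` -/
def Om : Set (Fin 2 → ℂ) := {x | (x 0, x 1) ∈ DD}

lemma Om_eq : Om = (MeasurableEquiv.finTwoArrow (α := ℂ)) ⁻¹' DD := rfl

lemma Om_open : IsOpen Om :=
  DD_open.preimage ((continuous_apply 0).prodMk (continuous_apply 1))

lemma Om_meas : MeasurableSet Om := Om_open.measurableSet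

lemma mp : MeasurePreserving (MeasurableEquiv.finTwoArrow (α := ℂ)) (volume.restrict Om)
    (volume.restrict DD) :=
  (volume_preserving_finTwoArrow ℂ).restrict_preimage DD_open.measurableSet

lemma zero_mem_DD (z : ℂ) : (z, (0:ℂ)) ∈ DD := by
  obtain ⟨n, hn⟩ := exists_radius z
  refine PA_sub n ⟨?_, ?_⟩
  · have : (0:ℝ) < (16:ℝ) ^ n := by positivity
    simp only [mem_ball, dist_zero_right]
    linarith
  · simp only [mem_ball, dist_self]
    positivity

lemma Om_connected : IsConnected Om := by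
  refine IsPathConnected.isConnected ?_
  refine ⟨0, ?_, ?_⟩
  · exact zero_mem_DD 0
  · intro x hx
    have h1 : JoinedIn Om 0 ![x 0, 0] := by
      refine JoinedIn.of_segment_subset ?_
      rintro _ ⟨a, b, _, _, _, rfl⟩
      have : ((a • (0 : Fin 2 → ℂ) + b • ![x 0, 0]) 1) = 0 := by simp
      simp only [Om, mem_ofPred_eq, this]
      exact zero_mem_DD _
    have h2 : JoinedIn Om ![x 0, 0] x := by
      refine JoinedIn.of_segment_subset ?_
      rintro _ ⟨a, b, ha, hb, hab, rfl⟩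
      have e0 : ((a • ![x 0, 0] + b • x) 0) = x 0 := by
        simp only [Pi.add_apply, Pi.smul_apply, Matrix.cons_val_zero]
        rw [← add_smul, hab, one_smul]
      have e1 : ((a • ![x 0, 0] + b • x) 1) = b • x 1 := by simp
      simp only [Om, mem_ofPred_eq, e0, e1]
      have hb1 : b ≤ 1 := by linarith
      have hn : ‖b • x 1‖ ≤ ‖x 1‖ := by
        rw [norm_smul, Real.norm_of_nonneg hb]
        exact mul_le_of_le_one_left (norm_nonneg _) hb1
      rcases hx with hx | hx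
      · obtain ⟨n, hn1, hn2⟩ := mem_iUnion.mp hx
        refine PA_sub n ⟨hn1, ?_⟩
        simp only [mem_ball, dist_zero_right] at hn2 ⊢
        exact lt_of_le_of_lt hn hn2
      · obtain ⟨n, hn1, hn2⟩ := mem_iUnion.mp hx
        refine PB_sub n ⟨hn1, ?_⟩
        simp only [mem_ball, dist_zero_right] at hn2 ⊢
        exact lt_of_le_of_lt hn hn2
    exact h1.trans h2

/-- the second coordinate -/
def W (x : Fin 2 → ℂ) : ℂ := x 1

lemma W_diff : DifferentiableOn ℂ W Om := by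
  unfold W; fun_prop

lemma W_memLp {p : ℝ} (hp1 : 1 ≤ p) (hp3 : p ≤ 3) :
    MemLp W (ENNReal.ofReal p) (volume.restrict Om) := by
  have h1 : MemLp (fun y : ℂ × ℂ => y.2) (ENNReal.ofReal p) (volume.restrict DD) := by
    refine ⟨measurable_snd.aestronglyMeasurable, ?_⟩
    rw [eLpNorm_lt_top_iff_lintegral_rpow_enorm_lt_top (by simp; linarith) ENNReal.ofReal_ne_top,
      ENNReal.toReal_ofReal (by linarith)]
    exact lintegral_DD_lt_top hp1 hp3
  exact h1.comp_measurePreserving mp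

lemma bergman_Om {g : (Fin 2 → ℂ) → ℂ} (hg : DifferentiableOn ℂ g Om)
    (hg2 : MemLp g 2 (volume.restrict Om)) : ∃ c : ℂ, ∀ x ∈ Om, g x = c * W x := by
  set G : ℂ × ℂ → ℂ := fun y => g ![y.1, y.2] with hGdef
  have hG : DifferentiableOn ℂ G DD := by
    refine hg.comp ?_ ?_
    · have : Differentiable ℂ (fun y : ℂ × ℂ => ![y.1, y.2]) := by
        rw [differentiable_pi]
        intro i
        fin_cases i
        · simp
        · simp
      exact this.differentiableOn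
    · intro y hy
      simpa [Om] using hy
  have hgG : ∀ x, g x = G (MeasurableEquiv.finTwoArrow x) := by
    intro x
    simp only [hGdef, MeasurableEquiv.finTwoArrow_apply]
    congr 1
    ext i; fin_cases i <;> rfl
  have hGn : eLpNorm G 2 (volume.restrict DD) = eLpNorm g 2 (volume.restrict Om) := by
    have : g = G ∘ MeasurableEquiv.finTwoArrow := funext hgG
    rw [this]
    exact (eLpNorm_comp_measurePreserving
      (hG.continuousOn.aestronglyMeasurable DD_open.measurableSet) mp).symm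
  set M : ℝ := (eLpNorm g 2 (volume.restrict Om)).toReal with hM
  refine ⟨gk G 1 0, ?_⟩
  intro x hx
  rw [hgG x]
  refine bergman_DD hG (M := M) ENNReal.toReal_nonneg ?_ hx
  rw [hGn, hM, ENNReal.ofReal_toReal hg2.eLpNorm_ne_top]

/-! ### Test sets in the spikes -/

/-- a polydisc inside the `n`-th spike on which `|w|` is comparable to `4 ^ n` -/
def TT (n : ℕ) : Set (Fin 2 → ℂ) := (MeasurableEquiv.finTwoArrow (α := ℂ)) ⁻¹'
  (ball (n : ℂ) (((32:ℝ) ^ n * (n + 1))⁻¹) ×ˢ ball (((3 / 4 * (4:ℝ) ^ n : ℝ)) : ℂ) ((4:ℝ) ^ n / 4))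

lemma TT_meas (n : ℕ) : MeasurableSet (TT n) :=
  (MeasurableEquiv.finTwoArrow (α := ℂ)).measurable (measurableSet_ball.prod measurableSet_ball)

lemma TT_bounds {n : ℕ} {x : Fin 2 → ℂ} (hx : x ∈ TT n) :
    (4:ℝ) ^ n / 2 ≤ ‖W x‖ ∧ ‖W x‖ < (4:ℝ) ^ n := by
  have h1 : ‖W x - ((3 / 4 * (4:ℝ) ^ n : ℝ) : ℂ)‖ < (4:ℝ) ^ n / 4 := by
    have := hx.2
    rwa [mem_ball, dist_eq_norm] at this
  have h2 : ‖((3 / 4 * (4:ℝ) ^ n : ℝ) : ℂ)‖ = 3 / 4 * (4:ℝ) ^ n := by
    rw [norm_real, Real.norm_of_nonneg (by positivity)]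
  constructor
  · have := norm_sub_norm_le ((3 / 4 * (4:ℝ) ^ n : ℝ) : ℂ) (((3 / 4 * (4:ℝ) ^ n : ℝ) : ℂ) - W x)
    rw [sub_sub_cancel, h2, norm_sub_rev] at this
    linarith
  · calc ‖W x‖ = ‖(W x - ((3 / 4 * (4:ℝ) ^ n : ℝ) : ℂ)) + ((3 / 4 * (4:ℝ) ^ n : ℝ) : ℂ)‖ := by ring_nf
      _ ≤ ‖W x - ((3 / 4 * (4:ℝ) ^ n : ℝ) : ℂ)‖ + ‖((3 / 4 * (4:ℝ) ^ n : ℝ) : ℂ)‖ := norm_add_le _ _
      _ < (4:ℝ) ^ n := by rw [h2]; linarith

lemma TT_sub (n : ℕ) : TT n ⊆ Om := by
  intro x hx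
  refine PB_sub n ⟨hx.1, ?_⟩
  simp only [mem_ball, dist_zero_right]
  exact (TT_bounds hx).2

/-- volume of the test sets -/
lemma TT_volume (n : ℕ) : volume (TT n) = ENNReal.ofReal (π ^ 2 / (16 * 64 ^ n * (n + 1) ^ 2)) := by
  rw [TT, (volume_preserving_finTwoArrow ℂ).measure_preimage
    (measurableSet_ball.prod measurableSet_ball).nullMeasurableSet]
  rw [volume_polydisc _ _ (by positivity) (by positivity)]
  congr 1
  have e1 : (32:ℝ) ^ n = (2 ^ n) ^ 5 := by rw [← pow_mul, mul_comm, pow_mul]; norm_num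
  have e2 : (4:ℝ) ^ n = (2 ^ n) ^ 2 := by rw [← pow_mul, mul_comm, pow_mul]; norm_num
  have e3 : (64:ℝ) ^ n = (2 ^ n) ^ 6 := by rw [← pow_mul, mul_comm, pow_mul]; norm_num
  rw [e1, e2, e3]
  have : (2:ℝ) ^ n ≠ 0 := by positivity
  field_simp
  norm_num

/-- the divergence for exponents `> 3` -/
lemma diverge {q : ℝ} (hq : 3 < q) (B : ℝ) : ∃ n : ℕ,
    B < ((4:ℝ) ^ n) ^ q * (π ^ 2 / (16 * 64 ^ n * (n + 1) ^ 2)) := by
  set r : ℝ := (4:ℝ) ^ (q - 3) with hr
  have hr1 : 1 < r := Real.one_lt_rpow (by norm_num) (by linarith)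
  have hr0 : 0 < r := by linarith
  have h1 := tendsto_pow_const_div_const_pow_of_one_lt 2 hr1
  have h2 := (h1.comp (Filter.tendsto_add_atTop_nat 1))
  set ε : ℝ := π ^ 2 / (16 * r * (|B| + 1)) with hε
  have hε0 : 0 < ε := by positivity
  obtain ⟨n, hn⟩ := (h2.eventually (gt_mem_nhds hε0)).exists
  refine ⟨n, ?_⟩
  simp only [Function.comp_apply] at hn
  push_cast at hn
  rw [div_lt_iff₀ (by positivity), hε] at hn
  have e1 : ((4:ℝ) ^ n) ^ q = 64 ^ n * r ^ n := by
    rw [hr, ← Real.rpow_natCast, ← Real.rpow_mul (by norm_num), ← Real.rpow_natCast, ← Real.rpow_natCast,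
      ← Real.rpow_mul (by norm_num), show (64:ℝ) = 4 ^ (3:ℝ) by norm_num, ← Real.rpow_mul (by norm_num),
      ← Real.rpow_add (by norm_num)]
    congr 1; ring
  rw [e1]
  have h3 : (64:ℝ) ^ n * r ^ n * (π ^ 2 / (16 * 64 ^ n * (n + 1) ^ 2)) = π ^ 2 * r ^ n / (16 * (n + 1) ^ 2) := by
    field_simp
  rw [h3, lt_div_iff₀ (by positivity)]
  have h4 : ((n:ℝ) + 1) ^ 2 * (16 * (|B| + 1)) < π ^ 2 * r ^ n := by
    have h5 : π ^ 2 / (16 * r * (|B| + 1)) * r ^ (n + 1) = π ^ 2 * r ^ n / (16 * (|B| + 1)) := by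
      rw [pow_succ]
      field_simp
      try ring
    rw [h5, lt_div_iff₀ (by positivity)] at hn
    exact hn
  have h6 : B * (16 * ((n:ℝ) + 1) ^ 2) ≤ ((n:ℝ) + 1) ^ 2 * (16 * (|B| + 1)) := by
    have : B ≤ |B| + 1 := by linarith [le_abs_self B]
    nlinarith [sq_nonneg ((n:ℝ) + 1)]
  linarith

/-! ### The final computation -/

/-- value of the measure of the test set -/
noncomputable def vv (n : ℕ) : ℝ := π ^ 2 / (16 * 64 ^ n * (n + 1) ^ 2)

lemma vv_pos (n : ℕ) : 0 < vv n := by unfold vv; positivity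

lemma TT_vol (n : ℕ) : volume (TT n) = ENNReal.ofReal (vv n) := TT_volume n

lemma TT_restrict (n : ℕ) : (volume.restrict Om).restrict (TT n) = volume.restrict (TT n) := by
  rw [Measure.restrict_restrict (TT_meas n), inter_eq_self_of_subset_left (TT_sub n)]

lemma W_meas : Measurable W := measurable_pi_apply 1

lemma W_memLp2 : MemLp W 2 (volume.restrict Om) := by
  have := W_memLp (p := 2) (by norm_num) (by norm_num)
  simpa using this

/-- square of the norm of `W` -/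
noncomputable def II : ℝ := ∫ x in Om, ‖W x‖ ^ 2

lemma normsq_integrable : Integrable (fun x => ‖W x‖ ^ 2) (volume.restrict Om) :=
  W_memLp2.integrable_norm_pow (by norm_num)

lemma TT_integral_lower (n : ℕ) : ((4:ℝ) ^ n / 2) ^ 2 * vv n ≤ ∫ x in TT n, ‖W x‖ ^ 2 := by
  have h1 : ∫ _x in TT n, ((4:ℝ) ^ n / 2) ^ 2 = ((4:ℝ) ^ n / 2) ^ 2 * vv n := by
    rw [setIntegral_const, measureReal_def, TT_vol, ENNReal.toReal_ofReal (vv_pos n).le, smul_eq_mul,
      mul_comm]
  rw [← h1]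
  have hfin : volume (TT n) ≠ ∞ := by rw [TT_vol]; exact ENNReal.ofReal_ne_top
  refine setIntegral_mono_on (integrableOn_const hfin) ?_ (TT_meas n) ?_
  · have := normsq_integrable
    exact this.mono_measure (Measure.restrict_mono (TT_sub n) le_rfl)
  · intro x hx
    have := (TT_bounds hx).1
    gcongr

lemma II_pos : 0 < II := by
  have h1 := TT_integral_lower 0
  have h2 : ∫ x in TT 0, ‖W x‖ ^ 2 ≤ II := by
    refine setIntegral_mono_set normsq_integrable ?_ ?_
    · exact Filter.Eventually.of_forall (fun x => by positivity)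
    · exact (TT_sub 0).eventuallyLE
  have h3 := vv_pos 0
  have : 0 < ((4:ℝ) ^ 0 / 2) ^ 2 * vv 0 := by positivity
  linarith

lemma norm_mul_integrable {f : (Fin 2 → ℂ) → ℂ} (hf : MemLp f 2 (volume.restrict Om)) :
    Integrable (fun z => f z * (starRingEnd ℂ) (W z)) (volume.restrict Om) := by
  have h1 : MemLp (fun z => (starRingEnd ℂ) (W z)) 2 (volume.restrict Om) := W_memLp2.star
  exact MemLp.integrable_mul (p := 2) (q := 2) hf h1

/-- the coefficient of the projection -/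
lemma coeff_eq {f g : (Fin 2 → ℂ) → ℂ} (hf : MemLp f 2 (volume.restrict Om))
    {c : ℂ} (hc : ∀ x ∈ Om, g x = c * W x)
    (horth : ∫ z in Om, (f z - g z) * (starRingEnd ℂ) (W z) = 0) :
    c * (II : ℂ) = ∫ z in Om, f z * (starRingEnd ℂ) (W z) := by
  have h1 : ∫ z in Om, (f z - g z) * (starRingEnd ℂ) (W z) =
      ∫ z in Om, (f z * (starRingEnd ℂ) (W z) - c * ((‖W z‖ ^ 2 : ℝ) : ℂ)) := by
    refine setIntegral_congr_fun Om_meas ?_
    intro z hz
    simp only [hc z hz, sub_mul, mul_assoc, Complex.mul_conj']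
    push_cast
    ring
  have hI2 : Integrable (fun z => c * ((‖W z‖ ^ 2 : ℝ) : ℂ)) (volume.restrict Om) :=
    (normsq_integrable.ofReal (𝕜 := ℂ)).const_mul c
  rw [h1, integral_sub (norm_mul_integrable hf) hI2,
    integral_const_mul, integral_complex_ofReal] at horth
  rw [II]
  exact (sub_eq_zero.mp horth).symm

/-- the upper bound -/
lemma upper_bound {p : ℝ} (hp1 : 3 / 2 ≤ p) (hp3 : p ≤ 3) :
    ∃ C : ℝ, ∀ f g : (Fin 2 → ℂ) → ℂ,
          MemLp f 2 (volume.restrict Om) →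
          MemLp f (ENNReal.ofReal p) (volume.restrict Om) →
          DifferentiableOn ℂ g Om →
          MemLp g 2 (volume.restrict Om) →
          (∀ h : (Fin 2 → ℂ) → ℂ, DifferentiableOn ℂ h Om → MemLp h 2 (volume.restrict Om) →
              ∫ z in Om, (f z - g z) * (starRingEnd ℂ) (h z) = 0) →
          eLpNorm g (ENNReal.ofReal p) (volume.restrict Om)
            ≤ ENNReal.ofReal C * eLpNorm f (ENNReal.ofReal p) (volume.restrict Om) := by
  set q : ℝ := p / (p - 1) with hq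
  have hpos : 0 < p - 1 := by linarith
  have hq1 : 1 ≤ q := by rw [hq, le_div_iff₀ hpos]; linarith
  have hq3 : q ≤ 3 := by rw [hq, div_le_iff₀ hpos]; linarith
  have hpq : p.HolderConjugate q := Real.HolderConjugate.conjExponent (by linarith)
  have hWp := W_memLp (p := p) (by linarith) hp3
  have hWq := W_memLp (p := q) hq1 hq3
  refine ⟨(eLpNorm W (ENNReal.ofReal q) (volume.restrict Om)).toReal *
    (eLpNorm W (ENNReal.ofReal p) (volume.restrict Om)).toReal / II, ?_⟩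
  intro f g hf hfp hg hg2 horth
  obtain ⟨c, hc⟩ := bergman_Om hg hg2
  have h1 := coeff_eq hf hc (horth W W_diff W_memLp2)
  have hgn : eLpNorm g (ENNReal.ofReal p) (volume.restrict Om) =
      ‖c‖ₑ * eLpNorm W (ENNReal.ofReal p) (volume.restrict Om) := by
    rw [← eLpNorm_const_smul]
    refine eLpNorm_congr_ae ?_
    filter_upwards [ae_restrict_mem Om_meas] with x hx
    rw [hc x hx]; rfl
  have h2 : ‖c‖ₑ * ENNReal.ofReal II ≤ eLpNorm f (ENNReal.ofReal p) (volume.restrict Om) *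
      eLpNorm W (ENNReal.ofReal q) (volume.restrict Om) := by
    calc ‖c‖ₑ * ENNReal.ofReal II = ‖c * (II : ℂ)‖ₑ := by
          rw [enorm_mul, ← ofReal_norm (II : ℂ), norm_real, Real.norm_of_nonneg II_pos.le]
      _ = ‖∫ z in Om, f z * (starRingEnd ℂ) (W z)‖ₑ := by rw [h1]
      _ ≤ ∫⁻ z in Om, ‖f z * (starRingEnd ℂ) (W z)‖ₑ := enorm_integral_le_lintegral_enorm _
      _ = ∫⁻ z in Om, (((fun z => ‖f z‖ₑ) * (fun z => ‖W z‖ₑ)) z) := by
          refine lintegral_congr ?_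
          intro z
          simp only [Pi.mul_apply, enorm_mul]
          congr 1
          rw [← ofReal_norm, RCLike.norm_conj, ofReal_norm]
      _ ≤ (∫⁻ z in Om, ‖f z‖ₑ ^ p) ^ (1 / p) * (∫⁻ z in Om, ‖W z‖ₑ ^ q) ^ (1 / q) :=
          ENNReal.lintegral_mul_le_Lp_mul_Lq _ hpq hf.aestronglyMeasurable.enorm
            W_meas.aestronglyMeasurable.enorm
      _ = eLpNorm f (ENNReal.ofReal p) (volume.restrict Om) *
            eLpNorm W (ENNReal.ofReal q) (volume.restrict Om) := by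
          rw [eLpNorm_eq_lintegral_rpow_enorm_toReal (by simp; linarith) ENNReal.ofReal_ne_top,
            eLpNorm_eq_lintegral_rpow_enorm_toReal (by simp; linarith) ENNReal.ofReal_ne_top,
            ENNReal.toReal_ofReal (by linarith), ENNReal.toReal_ofReal (by linarith)]
  have hII : ENNReal.ofReal II ≠ 0 := by simpa using II_pos
  have hII' : ENNReal.ofReal II ≠ ∞ := ENNReal.ofReal_ne_top
  have h3 : ‖c‖ₑ ≤ eLpNorm f (ENNReal.ofReal p) (volume.restrict Om) *
      eLpNorm W (ENNReal.ofReal q) (volume.restrict Om) / ENNReal.ofReal II :=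
    (ENNReal.le_div_iff_mul_le (Or.inl hII) (Or.inl hII')).mpr h2
  rw [hgn]
  calc ‖c‖ₑ * eLpNorm W (ENNReal.ofReal p) (volume.restrict Om)
      ≤ (eLpNorm f (ENNReal.ofReal p) (volume.restrict Om) *
      eLpNorm W (ENNReal.ofReal q) (volume.restrict Om) / ENNReal.ofReal II) *
        eLpNorm W (ENNReal.ofReal p) (volume.restrict Om) := by gcongr
    _ = ENNReal.ofReal ((eLpNorm W (ENNReal.ofReal q) (volume.restrict Om)).toReal *
    (eLpNorm W (ENNReal.ofReal p) (volume.restrict Om)).toReal / II) *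
      eLpNorm f (ENNReal.ofReal p) (volume.restrict Om) := by
        rw [ENNReal.ofReal_div_of_pos II_pos, ENNReal.ofReal_mul ENNReal.toReal_nonneg,
          ENNReal.ofReal_toReal hWp.eLpNorm_ne_top, ENNReal.ofReal_toReal hWq.eLpNorm_ne_top]
        simp only [div_eq_mul_inv]
        ring

/-- the coefficient of the projection of `W` restricted to the `n`-th test set -/
noncomputable def cc (n : ℕ) : ℝ := (∫ x in TT n, ‖W x‖ ^ 2) / II

lemma cc_lower (n : ℕ) : ((4:ℝ) ^ n / 2) ^ 2 * vv n / II ≤ cc n := by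
  unfold cc
  have := II_pos
  gcongr
  exact TT_integral_lower n

/-- consequence of boundedness, tested on the `n`-th test set -/
lemma test_ineq {p : ℝ} (hp : 1 < p) {C : ℝ}
    (hC : ∀ f g : (Fin 2 → ℂ) → ℂ,
          MemLp f 2 (volume.restrict Om) →
          MemLp f (ENNReal.ofReal p) (volume.restrict Om) →
          DifferentiableOn ℂ g Om →
          MemLp g 2 (volume.restrict Om) →
          (∀ h : (Fin 2 → ℂ) → ℂ, DifferentiableOn ℂ h Om → MemLp h 2 (volume.restrict Om) →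
              ∫ z in Om, (f z - g z) * (starRingEnd ℂ) (h z) = 0) →
          eLpNorm g (ENNReal.ofReal p) (volume.restrict Om)
            ≤ ENNReal.ofReal C * eLpNorm f (ENNReal.ofReal p) (volume.restrict Om)) (n : ℕ) :
    ENNReal.ofReal (((4:ℝ) ^ n / 2) ^ 2 * vv n / II) *
        eLpNorm W (ENNReal.ofReal p) (volume.restrict Om) ≤
      ENNReal.ofReal C * ENNReal.ofReal ((4:ℝ) ^ n * vv n ^ (1 / p)) := by
  set f : (Fin 2 → ℂ) → ℂ := (TT n).indicator W with hf
  set g : (Fin 2 → ℂ) → ℂ := (cc n : ℂ) • W with hg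
  have hfin : IsFiniteMeasure ((volume.restrict Om).restrict (TT n)) := by
    rw [TT_restrict]
    refine ⟨?_⟩
    rw [Measure.restrict_apply_univ, TT_vol]
    exact ENNReal.ofReal_lt_top
  have hbd : ∀ᵐ x ∂((volume.restrict Om).restrict (TT n)), ‖W x‖ ≤ (4:ℝ) ^ n := by
    filter_upwards [ae_restrict_mem (TT_meas n)] with x hx
    exact (TT_bounds hx).2.le
  have hfmem : ∀ r : ℝ≥0∞, MemLp f r (volume.restrict Om) := by
    intro r
    rw [hf, memLp_indicator_iff_restrict (TT_meas n)]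
    exact MemLp.of_bound W_meas.aestronglyMeasurable _ hbd
  have hgW : ∀ z, g z = (cc n : ℂ) * W z := fun z => rfl
  have hgd : DifferentiableOn ℂ g Om := W_diff.const_smul _
  have hg2 : MemLp g 2 (volume.restrict Om) := W_memLp2.const_smul _
  have horth : ∀ h : (Fin 2 → ℂ) → ℂ, DifferentiableOn ℂ h Om → MemLp h 2 (volume.restrict Om) →
              ∫ z in Om, (f z - g z) * (starRingEnd ℂ) (h z) = 0 := by
    intro h hh hh2
    obtain ⟨c, hc⟩ := bergman_Om hh hh2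
    have h1 : ∫ z in Om, (f z - g z) * (starRingEnd ℂ) (h z) =
        ∫ z in Om, ((starRingEnd ℂ) c * ((((TT n).indicator (fun z => ‖W z‖ ^ 2) z : ℝ)) : ℂ) -
          (starRingEnd ℂ) c * (cc n : ℂ) * ((‖W z‖ ^ 2 : ℝ) : ℂ)) := by
      refine setIntegral_congr_fun Om_meas ?_
      intro z hz
      simp only [hc z hz, hgW, hf, map_mul]
      by_cases hzT : z ∈ TT n
      · rw [indicator_of_mem hzT, indicator_of_mem hzT]
        push_cast
        rw [← Complex.mul_conj']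
        ring
      · rw [indicator_of_notMem hzT, indicator_of_notMem hzT]
        push_cast
        rw [← Complex.mul_conj']
        ring
    have hI1 : Integrable ((TT n).indicator (fun z => ‖W z‖ ^ 2)) (volume.restrict Om) :=
      normsq_integrable.indicator (TT_meas n)
    have hI1' : Integrable (fun z => (starRingEnd ℂ) c *
        ((((TT n).indicator (fun z => ‖W z‖ ^ 2) z : ℝ)) : ℂ)) (volume.restrict Om) :=
      (hI1.ofReal (𝕜 := ℂ)).const_mul _
    have hI2' : Integrable (fun z => (starRingEnd ℂ) c * (cc n : ℂ) * ((‖W z‖ ^ 2 : ℝ) : ℂ))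
        (volume.restrict Om) :=
      (normsq_integrable.ofReal (𝕜 := ℂ)).const_mul _
    rw [h1, integral_sub hI1' hI2', integral_const_mul, integral_const_mul, integral_complex_ofReal,
      integral_complex_ofReal, integral_indicator (TT_meas n), TT_restrict]
    change _ - _ * (II : ℂ) = 0
    rw [cc]
    have : (II : ℂ) ≠ 0 := by exact_mod_cast II_pos.ne'
    push_cast
    field_simp
    ring
  have h1 := hC f g (hfmem 2) (hfmem _) hgd hg2 horth
  have h2 : eLpNorm g (ENNReal.ofReal p) (volume.restrict Om) =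
      ENNReal.ofReal (cc n) * eLpNorm W (ENNReal.ofReal p) (volume.restrict Om) := by
    rw [hg, eLpNorm_const_smul]
    congr 1
    rw [← ofReal_norm, norm_real, Real.norm_of_nonneg]
    refine le_trans ?_ (cc_lower n)
    have := II_pos
    have := vv_pos n
    positivity
  have h3 : eLpNorm f (ENNReal.ofReal p) (volume.restrict Om) ≤
      ENNReal.ofReal ((4:ℝ) ^ n * vv n ^ (1 / p)) := by
    rw [hf, eLpNorm_indicator_eq_eLpNorm_restrict (TT_meas n)]
    refine (eLpNorm_le_of_ae_bound hbd).trans (le_of_eq ?_)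
    rw [TT_restrict, Measure.restrict_apply_univ, TT_vol, ENNReal.toReal_ofReal (by linarith),
      ENNReal.ofReal_rpow_of_pos (vv_pos n), ← ENNReal.ofReal_mul (by have := vv_pos n; positivity),
      mul_comm, one_div]
  calc ENNReal.ofReal (((4:ℝ) ^ n / 2) ^ 2 * vv n / II) *
        eLpNorm W (ENNReal.ofReal p) (volume.restrict Om)
      ≤ ENNReal.ofReal (cc n) * eLpNorm W (ENNReal.ofReal p) (volume.restrict Om) := by
        gcongr
        exact cc_lower n
    _ ≤ _ := by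
        rw [← h2]
        exact h1.trans (by gcongr)

/-- lower bound for the `L^p` norm of `W` -/
lemma W_norm_lower {p : ℝ} (hp : 1 < p) (n : ℕ) :
    ENNReal.ofReal ((4:ℝ) ^ n / 2 * vv n ^ (1 / p)) ≤
      eLpNorm W (ENNReal.ofReal p) (volume.restrict Om) := by
  have h1 : eLpNorm W (ENNReal.ofReal p) (volume.restrict (TT n)) ≤
      eLpNorm W (ENNReal.ofReal p) (volume.restrict Om) :=
    eLpNorm_mono_measure _ (Measure.restrict_mono (TT_sub n) le_rfl)
  refine le_trans ?_ h1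
  have h2 : eLpNorm (fun _ : Fin 2 → ℂ => ((4:ℝ) ^ n / 2 : ℝ)) (ENNReal.ofReal p) (volume.restrict (TT n)) ≤
      eLpNorm W (ENNReal.ofReal p) (volume.restrict (TT n)) := by
    refine eLpNorm_mono_ae ?_
    filter_upwards [ae_restrict_mem (TT_meas n)] with x hx
    rw [Real.norm_of_nonneg (by positivity)]
    exact (TT_bounds hx).1
  refine le_trans (le_of_eq ?_) h2
  rw [eLpNorm_const' _ (by simp; linarith) ENNReal.ofReal_ne_top, Measure.restrict_apply_univ, TT_vol,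
    ENNReal.toReal_ofReal (by linarith), ENNReal.ofReal_rpow_of_pos (vv_pos n), ← ofReal_norm,
    Real.norm_of_nonneg (by positivity), ← ENNReal.ofReal_mul (by positivity)]

lemma W_norm_top {p : ℝ} (hp : 3 < p) :
    eLpNorm W (ENNReal.ofReal p) (volume.restrict Om) = ∞ := by
  by_contra hne
  set N : ℝ := (eLpNorm W (ENNReal.ofReal p) (volume.restrict Om)).toReal with hN
  have hN0 : 0 ≤ N := ENNReal.toReal_nonneg
  obtain ⟨n, hn⟩ := diverge hp ((2 * N) ^ p)
  have h1 := W_norm_lower (p := p) (by linarith) n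
  have hv := vv_pos n
  rw [← ENNReal.ofReal_toReal hne, ENNReal.ofReal_le_ofReal_iff hN0] at h1
  have h2 : (4:ℝ) ^ n * vv n ^ (1 / p) ≤ 2 * N := by linarith
  have h3 : ((4:ℝ) ^ n * vv n ^ (1 / p)) ^ p ≤ (2 * N) ^ p :=
    Real.rpow_le_rpow (by positivity) h2 (by linarith)
  rw [Real.mul_rpow (by positivity) (by positivity), ← Real.rpow_mul hv.le,
    one_div_mul_cancel (by linarith), Real.rpow_one] at h3
  exact absurd (lt_of_lt_of_le hn h3) (lt_irrefl _)

/-- unboundedness outside `[3/2, 3]` -/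
lemma not_bounded {p : ℝ} (hp : 1 < p) {C : ℝ}
    (hC : ∀ f g : (Fin 2 → ℂ) → ℂ,
          MemLp f 2 (volume.restrict Om) →
          MemLp f (ENNReal.ofReal p) (volume.restrict Om) →
          DifferentiableOn ℂ g Om →
          MemLp g 2 (volume.restrict Om) →
          (∀ h : (Fin 2 → ℂ) → ℂ, DifferentiableOn ℂ h Om → MemLp h 2 (volume.restrict Om) →
              ∫ z in Om, (f z - g z) * (starRingEnd ℂ) (h z) = 0) →
          eLpNorm g (ENNReal.ofReal p) (volume.restrict Om)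
            ≤ ENNReal.ofReal C * eLpNorm f (ENNReal.ofReal p) (volume.restrict Om)) :
    3 / 2 ≤ p ∧ p ≤ 3 := by
  have hII := II_pos
  have hp3 : p ≤ 3 := by
    by_contra hp3
    push Not at hp3
    have h1 := test_ineq hp hC 0
    rw [W_norm_top hp3, ENNReal.mul_top] at h1
    · have h2 : ENNReal.ofReal C * ENNReal.ofReal ((4:ℝ) ^ 0 * vv 0 ^ (1 / p)) < ∞ :=
        ENNReal.mul_lt_top ENNReal.ofReal_lt_top ENNReal.ofReal_lt_top
      exact absurd h2 (not_lt.mpr h1)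
    · have hv := vv_pos 0
      simp only [ne_eq, ENNReal.ofReal_eq_zero, not_le]
      positivity
  refine ⟨?_, hp3⟩
  by_contra hp32
  push Not at hp32
  have hWp := W_memLp (p := p) hp.le hp3
  set N : ℝ := (eLpNorm W (ENNReal.ofReal p) (volume.restrict Om)).toReal with hN
  have hNeq : eLpNorm W (ENNReal.ofReal p) (volume.restrict Om) = ENNReal.ofReal N :=
    (ENNReal.ofReal_toReal hWp.eLpNorm_ne_top).symm
  have hN0 : 0 < N := by
    have h1 := W_norm_lower hp 0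
    rw [hNeq] at h1
    have hv := vv_pos 0
    have h2 : 0 < (4:ℝ) ^ 0 / 2 * vv 0 ^ (1 / p) := by positivity
    by_contra hneg
    push Not at hneg
    rw [ENNReal.ofReal_of_nonpos hneg] at h1
    have : ENNReal.ofReal ((4:ℝ) ^ 0 / 2 * vv 0 ^ (1 / p)) = 0 := le_antisymm h1 bot_le
    rw [ENNReal.ofReal_eq_zero] at this
    linarith
  set q : ℝ := p / (p - 1) with hq
  have hpos : 0 < p - 1 := by linarith
  have hq3 : 3 < q := by rw [hq, lt_div_iff₀ hpos]; linarith
  set C' : ℝ := max C 0 with hC'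
  have hC'0 : 0 ≤ C' := le_max_right _ _
  set B : ℝ := 4 * II * C' / N with hB
  obtain ⟨n, hn⟩ := diverge hq3 (B ^ q)
  have hv := vv_pos n
  have h1 := test_ineq hp hC n
  rw [hNeq, ← ENNReal.ofReal_mul (by positivity)] at h1
  have h2 : ENNReal.ofReal C ≤ ENNReal.ofReal C' := ENNReal.ofReal_le_ofReal (le_max_left _ _)
  have h3 : ENNReal.ofReal (((4:ℝ) ^ n / 2) ^ 2 * vv n / II * N) ≤
      ENNReal.ofReal (C' * ((4:ℝ) ^ n * vv n ^ (1 / p))) := by
    rw [ENNReal.ofReal_mul hC'0]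
    exact h1.trans (by gcongr)
  rw [ENNReal.ofReal_le_ofReal_iff (by positivity)] at h3
  have h4 : (4:ℝ) ^ n * vv n ^ (1 / q) ≤ B := by
    have e1 : vv n = vv n ^ (1 / p) * vv n ^ (1 / q) := by
      rw [← Real.rpow_add hv]
      have : 1 / p + 1 / q = 1 := by
        rw [hq]; field_simp; ring
      rw [this, Real.rpow_one]
    have e2 : ((4:ℝ) ^ n / 2) ^ 2 * vv n / II * N =
        ((4:ℝ) ^ n * vv n ^ (1 / q)) * (((4:ℝ) ^ n * vv n ^ (1 / p)) * N / (4 * II)) := by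
      nth_rewrite 1 [e1]
      field_simp
      ring
    have e3 : C' * ((4:ℝ) ^ n * vv n ^ (1 / p)) = B * (((4:ℝ) ^ n * vv n ^ (1 / p)) * N / (4 * II)) := by
      rw [hB]
      field_simp
    rw [e2, e3] at h3
    exact le_of_mul_le_mul_right h3 (by positivity)
  have h5 : ((4:ℝ) ^ n * vv n ^ (1 / q)) ^ q ≤ B ^ q :=
    Real.rpow_le_rpow (by positivity) h4 (by linarith)
  rw [Real.mul_rpow (by positivity) (by positivity), ← Real.rpow_mul hv.le,
    one_div_mul_cancel (by linarith), Real.rpow_one] at h5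
  exact absurd (lt_of_lt_of_le hn h5) (lt_irrefl _)

end Pool.Agent.Lib.MP_6c36f4_an
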