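import Mathlib
import Pool.Agent.Lib.MP_6c36f4_an.Final

set_option autoImplicit false

open MeasureTheory Complex Metric Set
open scoped Real ENNReal

namespace Pool.Agent.Lib.MP_6c36f4_an.Fam

/-- the inverse radius of the spikes -/
noncomputable def sp (b : ℝ) : ℝ := 4 * (2:ℝ) ^ b

lemma sp_pos (b : ℝ) : 0 < sp b := by unfold sp; positivity

lemma sp_sq (b : ℝ) : sp b ^ 2 = 16 * (4:ℝ) ^ b := by
  have h : (4:ℝ) ^ b = ((2:ℝ) ^ b) ^ 2 := by
    rw [← Real.rpow_natCast, ← Real.rpow_mul (by norm_num), mul_comm, Real.rpow_mul (by norm_num)]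
    norm_num
  rw [h, sp]; ring

lemma sp_pow_sq (b : ℝ) (n : ℕ) : (sp b ^ n) ^ 2 = 16 ^ n * ((4:ℝ) ^ b) ^ n := by
  rw [← pow_mul, mul_comm n 2, pow_mul, sp_sq, mul_pow]

lemma four_pow_sq (n : ℕ) : ((4:ℝ) ^ n) ^ 2 = 16 ^ n := by
  rw [← pow_mul, mul_comm n 2, pow_mul]; norm_num

lemma four_pow (b : ℝ) (n : ℕ) : ((4:ℝ) ^ n) ^ b = ((4:ℝ) ^ b) ^ n := by
  rw [← Real.rpow_natCast, ← Real.rpow_natCast, ← Real.rpow_mul (by norm_num),
    ← Real.rpow_mul (by norm_num), mul_comm]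

lemma sp_lt {b : ℝ} (h : b < 4) : sp b < 4 ^ 3 := by
  have h1 : (2:ℝ) ^ b < (2:ℝ) ^ (4:ℝ) := Real.rpow_lt_rpow_of_exponent_lt (by norm_num) h
  have h2 : (2:ℝ) ^ (4:ℝ) = 16 := by norm_num
  unfold sp
  linarith

/-! ### The domain in `ℂ × ℂ` -/

/-- spikes -/
def PB (b : ℝ) (n : ℕ) : Set (ℂ × ℂ) := ball (n : ℂ) (((sp b) ^ n * (n + 1))⁻¹) ×ˢ ball 0 ((4:ℝ) ^ n)

/-- the domain, as a subset of `ℂ × ℂ` -/
def DD (b : ℝ) : Set (ℂ × ℂ) := (⋃ n, PA n) ∪ (⋃ n, PB b n)

variable {b : ℝ}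

lemma PB_open (n : ℕ) : IsOpen (PB b n) := isOpen_ball.prod isOpen_ball
lemma DD_open : IsOpen (DD b) := (isOpen_iUnion PA_open).union (isOpen_iUnion PB_open)
lemma PA_sub (n : ℕ) : PA n ⊆ (DD b) := fun _ hx => Or.inl (mem_iUnion.mpr ⟨n, hx⟩)
lemma PB_sub (n : ℕ) : PB b n ⊆ (DD b) := fun _ hx => Or.inr (mem_iUnion.mpr ⟨n, hx⟩)

section coeff
variable {G : ℂ × ℂ → ℂ} (hG : DifferentiableOn ℂ G (DD b)) {M : ℝ} (hM0 : 0 ≤ M)
  (hM : eLpNorm G 2 (volume.restrict (DD b)) ≤ ENNReal.ofReal M)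

include hG in
lemma gk_entire (k : ℕ) : Differentiable ℂ (gk G k) := by
  intro z
  obtain ⟨n, hn⟩ := exists_radius z
  have h1 : DifferentiableOn ℂ (gk G k) (ball 0 ((16:ℝ) ^ n)) := by
    refine gk_differentiableOn DD_open hG (s := ((8:ℝ) ^ n)⁻¹ / 2) (by positivity) k isOpen_ball ?_
    refine Subset.trans ?_ (PA_sub n)
    exact prod_mono_right (closedBall_subset_ball (by
      have : (0:ℝ) < ((8:ℝ) ^ n)⁻¹ := by positivity
      linarith))
  refine h1.differentiableAt (isOpen_ball.mem_nhds ?_)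
  have : (0:ℝ) < (16:ℝ) ^ n := by positivity
  simp only [mem_ball, dist_zero_right]
  linarith

include hG hM0 hM in
lemma gk_boundA (k n : ℕ) {a : ℂ} (ha : ‖a‖ ≤ (16:ℝ) ^ n / 2) :
    ‖gk G k a‖ ≤ M * (k + 2) / π * ((8:ℝ) ^ (k + 1) / 16) ^ n := by
  have h1 := gk_bound DD_open hG hM0 hM k (a := a) (ρ := (16:ℝ) ^ n / 2) (h := ((8:ℝ) ^ n)⁻¹)
    (by positivity) (by positivity) ?_
  · refine h1.trans (le_of_eq ?_)
    have e1 : (((8:ℝ) ^ n)⁻¹) ^ (k + 1) = (((8:ℝ) ^ (k + 1)) ^ n)⁻¹ := by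
      rw [inv_pow, ← pow_mul, ← pow_mul, mul_comm]
    rw [e1, div_pow]
    field_simp
  · refine Subset.trans ?_ (PA_sub n)
    refine prod_mono_left ?_
    intro z hz
    have := mem_ball.mp hz
    simp only [mem_ball, dist_zero_right]
    calc ‖z‖ = ‖(z - a) + a‖ := by ring_nf
      _ ≤ ‖z - a‖ + ‖a‖ := norm_add_le _ _
      _ < (16:ℝ) ^ n := by rw [← dist_eq_norm]; linarith

include hG hM0 hM in
lemma gk_boundB (k n : ℕ) :
    ‖gk G k n‖ ≤ M * (k + 2) / (2 * π) * ((n + 1) * (sp b / (4:ℝ) ^ (k + 1)) ^ n) := by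
  have h1 := gk_bound DD_open hG hM0 hM k (a := (n:ℂ)) (ρ := ((sp b) ^ n * (n + 1))⁻¹) (h := (4:ℝ) ^ n)
    (by have := sp_pos b; positivity) (by positivity) (PB_sub n)
  refine h1.trans (le_of_eq ?_)
  have hsp := sp_pos b
  have e1 : ((4:ℝ) ^ n) ^ (k + 1) = ((4:ℝ) ^ (k + 1)) ^ n := by
      rw [← pow_mul, ← pow_mul, mul_comm]
  rw [e1, div_pow]
  field_simp

include hG hM0 hM in
lemma gk_iteratedDeriv_zero (k m : ℕ) (hm : k ≤ m) (c : ℂ) :
    iteratedDeriv m (gk G k) c = 0 := by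
  have hent := gk_entire hG k
  obtain ⟨n₀, hn₀⟩ := exists_radius c
  set q : ℝ := (8:ℝ) ^ (k + 1) / 16 ^ (m + 1) with hq
  have hq0 : 0 ≤ q := by positivity
  have hq1 : q < 1 := by
    rw [hq, div_lt_one (by positivity)]
    calc (8:ℝ) ^ (k + 1) < 16 ^ (k + 1) := pow_lt_pow_left₀ (by norm_num) (by norm_num) (by omega)
      _ ≤ 16 ^ (m + 1) := pow_le_pow_right₀ (by norm_num) (by omega)
  have hbound : ∀ n, n₀ ≤ n → ‖iteratedDeriv m (gk G k) c‖ ≤
      (m.factorial * (M * (k + 2) / π) * 4 ^ m) * q ^ n := by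
    intro n hn
    have hcn : ‖c‖ ≤ (16:ℝ) ^ n / 4 := by
      have : (16:ℝ) ^ n₀ ≤ 16 ^ n := pow_le_pow_right₀ (by norm_num) hn
      linarith
    have h1 := norm_iteratedDeriv_le_of_forall_mem_sphere_norm_le (c := c) (R := (16:ℝ) ^ n / 4)
      (C := M * (k + 2) / π * ((8:ℝ) ^ (k + 1) / 16) ^ n) (f := gk G k) m (by positivity)
      hent.diffContOnCl (by
        intro z hz
        refine gk_boundA hG hM0 hM k n ?_
        have := mem_sphere.mp hz
        rw [dist_eq_norm] at this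
        calc ‖z‖ = ‖(z - c) + c‖ := by ring_nf
          _ ≤ ‖z - c‖ + ‖c‖ := norm_add_le _ _
          _ ≤ (16:ℝ) ^ n / 2 := by linarith)
    refine h1.trans (le_of_eq ?_)
    have e1 : q ^ n = ((8:ℝ) ^ (k + 1)) ^ n / (16 ^ n * (16 ^ n) ^ m) := by
      rw [hq, div_pow]
      congr 1
      rw [← pow_mul, ← pow_mul, ← pow_add]
      congr 1
      ring
    rw [e1, div_pow, div_pow]
    field_simp
  have hlim : Filter.Tendsto (fun n : ℕ => (m.factorial * (M * (k + 2) / π) * 4 ^ m) * q ^ n)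
      Filter.atTop (nhds 0) := by
    have := (tendsto_pow_atTop_nhds_zero_of_lt_one hq0 hq1).const_mul
      (m.factorial * (M * (k + 2) / π) * 4 ^ m)
    simpa using this
  have h2 : ‖iteratedDeriv m (gk G k) c‖ ≤ 0 := by
    refine ge_of_tendsto hlim ?_
    filter_upwards [Filter.eventually_ge_atTop n₀] with n hn
    exact hbound n hn
  exact norm_le_zero_iff.mp h2

include hG hM0 hM in
lemma gk_zero (z : ℂ) : gk G 0 z = 0 := by
  have := gk_iteratedDeriv_zero hG hM0 hM 0 0 le_rfl z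
  simpa using this

include hG hM0 hM in
lemma gk_one (z : ℂ) : gk G 1 z = gk G 1 0 := by
  refine is_const_of_deriv_eq_zero (gk_entire hG 1) ?_ z 0
  intro c
  have := gk_iteratedDeriv_zero hG hM0 hM 1 1 le_rfl c
  simpa using this

include hG hM0 hM in
lemma gk_two (b4 : b < 4) (k : ℕ) (hk : 2 ≤ k) (z : ℂ) : gk G k z = 0 := by
  refine entire_zero (gk_entire hG k) (N := k)
    (fun m hm => gk_iteratedDeriv_zero hG hM0 hM k m hm 0) ?_ z
  rw [tendsto_zero_iff_norm_tendsto_zero]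
  have hlim : Filter.Tendsto (fun n : ℕ => M * (k + 2) / (2 * π) *
      ((n + 1) * (sp b / (4:ℝ) ^ (k + 1)) ^ n)) Filter.atTop (nhds 0) := by
    have hsp := sp_pos b
    set q : ℝ := sp b / (4:ℝ) ^ (k + 1) with hq
    have hq0 : 0 ≤ q := by positivity
    have hq1 : q < 1 := by
      rw [hq, div_lt_one (by positivity)]
      calc sp b < 4 ^ 3 := sp_lt b4
        _ ≤ 4 ^ (k + 1) := pow_le_pow_right₀ (by norm_num) (by omega)
    have h1 := tendsto_self_mul_const_pow_of_lt_one hq0 hq1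
    have h2 := tendsto_pow_atTop_nhds_zero_of_lt_one hq0 hq1
    have h3 := (h1.add h2).const_mul (M * (k + 2) / (2 * π))
    simp only [add_zero, mul_zero] at h3
    refine h3.congr ?_
    intro n
    ring
  refine squeeze_zero (fun n => norm_nonneg _) (fun n => gk_boundB hG hM0 hM k n) hlim

include hG hM0 hM in
/-- The Bergman space of `(DD b)` is one-dimensional. -/
lemma bergman_DD (b4 : b < 4) {x : ℂ × ℂ} (hx : x ∈ (DD b)) : G x = gk G 1 0 * x.2 := by
  obtain ⟨z, w⟩ := x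
  obtain ⟨s, hs, hws⟩ : ∃ s : ℝ, (∀ w' ∈ ball (0:ℂ) s, (z, w') ∈ (DD b)) ∧ w ∈ ball (0:ℂ) s := by
    rcases hx with hx | hx
    · obtain ⟨n, hn⟩ := mem_iUnion.mp hx
      exact ⟨_, fun w' hw' => PA_sub n ⟨hn.1, hw'⟩, hn.2⟩
    · obtain ⟨n, hn⟩ := mem_iUnion.mp hx
      exact ⟨_, fun w' hw' => PB_sub n ⟨hn.1, hw'⟩, hn.2⟩
  have h1 : DifferentiableOn ℂ (fun w' => G (z, w')) (ball 0 s) := by
    refine hG.comp (by fun_prop) ?_
    intro w' hw'
    exact hs w' hw'
  have h2 := Complex.hasSum_taylorSeries_on_ball h1 hws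
  have h3 : HasSum (fun n : ℕ ↦ (n.factorial : ℂ)⁻¹ • (w - 0) ^ n •
      iteratedDeriv n (fun w' => G (z, w')) 0) (gk G 1 0 * w) := by
    have h4 : (fun n : ℕ ↦ (n.factorial : ℂ)⁻¹ • (w - 0) ^ n •
      iteratedDeriv n (fun w' => G (z, w')) 0) = fun n => gk G n z * w ^ n := by
      ext n
      simp only [gk, tc, smul_eq_mul, sub_zero]
      ring
    rw [h4]
    have h5 : gk G 1 0 * w = gk G 1 z * w ^ 1 := by rw [gk_one hG hM0 hM z, pow_one]
    rw [h5]
    refine hasSum_single 1 ?_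
    intro n hn
    rcases Nat.lt_or_ge n 2 with h | h
    · have : n = 0 := by omega
      rw [this, gk_zero hG hM0 hM z, zero_mul]
    · rw [gk_two hG hM0 hM b4 n h z, zero_mul]
  exact h2.unique h3

end coeff


lemma lintegral_DD_lt_top {p : ℝ} (hp1 : 1 ≤ p) (hp3 : p ≤ b) :
    ∫⁻ x in (DD b), ‖x.2‖ₑ ^ p < ∞ := by
  have hA : ∀ n, ∫⁻ x in PA n, ‖x.2‖ₑ ^ p ≤ ENNReal.ofReal (π ^ 2 * (1 / 2) ^ n) := by
    intro n
    refine (lintegral_polydisc_le 0 (by positivity) (by positivity) (by linarith)).trans ?_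
    apply ENNReal.ofReal_le_ofReal
    have h1 : (((8:ℝ) ^ n)⁻¹) ^ p ≤ ((8:ℝ) ^ n)⁻¹ := by
      have h8 : ((8:ℝ) ^ n)⁻¹ ≤ 1 := inv_le_one_of_one_le₀ (one_le_pow₀ (by norm_num))
      calc (((8:ℝ) ^ n)⁻¹) ^ p ≤ (((8:ℝ) ^ n)⁻¹) ^ (1:ℝ) :=
            Real.rpow_le_rpow_of_exponent_ge (by positivity) h8 hp1
        _ = _ := Real.rpow_one _
    calc (((8:ℝ) ^ n)⁻¹) ^ p * (π * (16:ℝ) ^ n * ((8:ℝ) ^ n)⁻¹) ^ 2
        ≤ ((8:ℝ) ^ n)⁻¹ * (π * (16:ℝ) ^ n * ((8:ℝ) ^ n)⁻¹) ^ 2 := by gcongr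
      _ = π ^ 2 * (1 / 2) ^ n := by
        have e1 : (16:ℝ) ^ n = 8 ^ n * 2 ^ n := by rw [← mul_pow]; norm_num
        have e2 : (8:ℝ) ^ n = (2 ^ n) ^ 3 := by rw [← pow_mul, mul_comm, pow_mul]; norm_num
        rw [e1, e2, one_div, inv_pow]
        have : (2:ℝ) ^ n ≠ 0 := by positivity
        field_simp
  have hB : ∀ n, ∫⁻ x in PB b n, ‖x.2‖ₑ ^ p ≤ ENNReal.ofReal (π ^ 2 * (1 / ((n : ℝ) + 1) ^ 2)) := by
    intro n
    have hsp := sp_pos b
    refine (lintegral_polydisc_le _ (by positivity) (by positivity) (by linarith)).trans ?_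
    apply ENNReal.ofReal_le_ofReal
    have h1 : ((4:ℝ) ^ n) ^ p ≤ ((4:ℝ) ^ b) ^ n := by
      have h8 : 1 ≤ (4:ℝ) ^ n := one_le_pow₀ (by norm_num)
      calc ((4:ℝ) ^ n) ^ p ≤ ((4:ℝ) ^ n) ^ b :=
            Real.rpow_le_rpow_of_exponent_le h8 hp3
        _ = _ := four_pow b n
    calc ((4:ℝ) ^ n) ^ p * (π * (((sp b) ^ n * (n + 1))⁻¹) * (4:ℝ) ^ n) ^ 2
        ≤ ((4:ℝ) ^ b) ^ n * (π * (((sp b) ^ n * (n + 1))⁻¹) * (4:ℝ) ^ n) ^ 2 := by gcongr
      _ = π ^ 2 * (1 / ((n : ℝ) + 1) ^ 2) * ((((4:ℝ) ^ b) ^ n * ((4:ℝ) ^ n) ^ 2) / ((sp b) ^ n) ^ 2) := by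
        field_simp
      _ = π ^ 2 * (1 / ((n : ℝ) + 1) ^ 2) := by
        rw [sp_pow_sq, four_pow_sq, mul_comm (((4:ℝ) ^ b) ^ n), div_self (by positivity), mul_one]
  have hsA : Summable (fun n : ℕ => π ^ 2 * (1 / 2 : ℝ) ^ n) :=
    (summable_geometric_of_lt_one (by norm_num) (by norm_num)).mul_left _
  have hsB : Summable (fun n : ℕ => π ^ 2 * (1 / ((n : ℝ) + 1) ^ 2)) := by
    refine Summable.mul_left _ ?_
    have := (summable_nat_add_iff (f := fun n : ℕ => 1 / (n : ℝ) ^ 2) 1).mpr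
      (Real.summable_one_div_nat_pow.mpr (by norm_num))
    simpa using this
  calc ∫⁻ x in (DD b), ‖x.2‖ₑ ^ p
      ≤ (∫⁻ x in (⋃ n, PA n), ‖x.2‖ₑ ^ p) + (∫⁻ x in (⋃ n, PB b n), ‖x.2‖ₑ ^ p) :=
        lintegral_union_le _ _ _
    _ ≤ (∑' n, ∫⁻ x in PA n, ‖x.2‖ₑ ^ p) + (∑' n, ∫⁻ x in PB b n, ‖x.2‖ₑ ^ p) :=
        add_le_add (lintegral_iUnion_le _ _) (lintegral_iUnion_le _ _)
    _ ≤ (∑' n : ℕ, ENNReal.ofReal (π ^ 2 * (1 / 2) ^ n)) +
        (∑' n : ℕ, ENNReal.ofReal (π ^ 2 * (1 / ((n : ℝ) + 1) ^ 2))) :=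
        add_le_add (ENNReal.tsum_le_tsum hA) (ENNReal.tsum_le_tsum hB)
    _ < ∞ := by
        rw [← ENNReal.ofReal_tsum_of_nonneg (fun n => by positivity) hsA,
          ← ENNReal.ofReal_tsum_of_nonneg (fun n => by positivity) hsB]
        exact ENNReal.add_lt_top.mpr ⟨ENNReal.ofReal_lt_top, ENNReal.ofReal_lt_top⟩

/-! ### Transfer to `Fin 2 → ℂ` -/

/-- the domain in `ℂ²` -/
def Om (b : ℝ) : Set (Fin 2 → ℂ) := {x | (x 0, x 1) ∈ DD b}

lemma Om_eq : (Om b) = (MeasurableEquiv.finTwoArrow (α := ℂ)) ⁻¹' (DD b) := rfl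

lemma Om_open : IsOpen (Om b) :=
  DD_open.preimage ((continuous_apply 0).prodMk (continuous_apply 1))

lemma Om_meas : MeasurableSet (Om b) := Om_open.measurableSet

lemma mp : MeasurePreserving (MeasurableEquiv.finTwoArrow (α := ℂ)) (volume.restrict (Om b))
    (volume.restrict (DD b)) :=
  (volume_preserving_finTwoArrow ℂ).restrict_preimage DD_open.measurableSet

lemma zero_mem_DD (z : ℂ) : (z, (0:ℂ)) ∈ (DD b) := by
  obtain ⟨n, hn⟩ := exists_radius z
  refine PA_sub n ⟨?_, ?_⟩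
  · have : (0:ℝ) < (16:ℝ) ^ n := by positivity
    simp only [mem_ball, dist_zero_right]
    linarith
  · simp only [mem_ball, dist_self]
    positivity

lemma Om_connected : IsConnected (Om b) := by
  refine IsPathConnected.isConnected ?_
  refine ⟨0, ?_, ?_⟩
  · exact zero_mem_DD 0
  · intro x hx
    have h1 : JoinedIn (Om b) 0 ![x 0, 0] := by
      refine JoinedIn.of_segment_subset ?_
      rintro _ ⟨a, b, _, _, _, rfl⟩
      have : ((a • (0 : Fin 2 → ℂ) + b • ![x 0, 0]) 1) = 0 := by simp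
      simp only [Om, mem_ofPred_eq, this]
      exact zero_mem_DD _
    have h2 : JoinedIn (Om b) ![x 0, 0] x := by
      refine JoinedIn.of_segment_subset ?_
      rintro _ ⟨a, b, ha, hb, hab, rfl⟩
      have e0 : ((a • ![x 0, 0] + b • x) 0) = x 0 := by
        simp only [Pi.add_apply, Pi.smul_apply, Matrix.cons_val_zero]
        rw [← add_smul, hab, one_smul]
      have e1 : ((a • ![x 0, 0] + b • x) 1) = b • x 1 := by simp
      simp only [Om, mem_ofPred_eq, e0, e1]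
      have hb1 : b ≤ 1 := by linarith
      have hn : ‖b • x 1‖ ≤ ‖x 1‖ := by
        rw [norm_smul, Real.norm_of_nonneg hb]
        exact mul_le_of_le_one_left (norm_nonneg _) hb1
      rcases hx with hx | hx
      · obtain ⟨n, hn1, hn2⟩ := mem_iUnion.mp hx
        refine PA_sub n ⟨hn1, ?_⟩
        simp only [mem_ball, dist_zero_right] at hn2 ⊢
        exact lt_of_le_of_lt hn hn2
      · obtain ⟨n, hn1, hn2⟩ := mem_iUnion.mp hx
        refine PB_sub n ⟨hn1, ?_⟩
        simp only [mem_ball, dist_zero_right] at hn2 ⊢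
        exact lt_of_le_of_lt hn hn2
    exact h1.trans h2

/-- the second coordinate -/
def W (x : Fin 2 → ℂ) : ℂ := x 1

lemma W_diff : DifferentiableOn ℂ W (Om b) := by
  unfold W; fun_prop

lemma W_memLp {p : ℝ} (hp1 : 1 ≤ p) (hp3 : p ≤ b) :
    MemLp W (ENNReal.ofReal p) (volume.restrict (Om b)) := by
  have h1 : MemLp (fun y : ℂ × ℂ => y.2) (ENNReal.ofReal p) (volume.restrict (DD b)) := by
    refine ⟨measurable_snd.aestronglyMeasurable, ?_⟩
    rw [eLpNorm_lt_top_iff_lintegral_rpow_enorm_lt_top (by simp; linarith) ENNReal.ofReal_ne_top,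
      ENNReal.toReal_ofReal (by linarith)]
    exact lintegral_DD_lt_top hp1 hp3
  exact h1.comp_measurePreserving mp

lemma bergman_Om [hb4 : Fact (b < 4)] {g : (Fin 2 → ℂ) → ℂ} (hg : DifferentiableOn ℂ g (Om b))
    (hg2 : MemLp g 2 (volume.restrict (Om b))) : ∃ c : ℂ, ∀ x ∈ (Om b), g x = c * W x := by
  set G : ℂ × ℂ → ℂ := fun y => g ![y.1, y.2] with hGdef
  have hG : DifferentiableOn ℂ G (DD b) := by
    refine hg.comp ?_ ?_
    · have : Differentiable ℂ (fun y : ℂ × ℂ => ![y.1, y.2]) := by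
        rw [differentiable_pi]
        intro i
        fin_cases i
        · simp
        · simp
      exact this.differentiableOn
    · intro y hy
      simpa [Om] using hy
  have hgG : ∀ x, g x = G (MeasurableEquiv.finTwoArrow x) := by
    intro x
    simp only [hGdef, MeasurableEquiv.finTwoArrow_apply]
    congr 1
    ext i; fin_cases i <;> rfl
  have hGn : eLpNorm G 2 (volume.restrict (DD b)) = eLpNorm g 2 (volume.restrict (Om b)) := by
    have : g = G ∘ MeasurableEquiv.finTwoArrow := funext hgG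
    rw [this]
    exact (eLpNorm_comp_measurePreserving
      (hG.continuousOn.aestronglyMeasurable DD_open.measurableSet) mp).symm
  set M : ℝ := (eLpNorm g 2 (volume.restrict (Om b))).toReal with hM
  refine ⟨gk G 1 0, ?_⟩
  intro x hx
  rw [hgG x]
  refine bergman_DD hG (M := M) ENNReal.toReal_nonneg ?_ hb4.out hx
  rw [hGn, hM, ENNReal.ofReal_toReal hg2.eLpNorm_ne_top]

/-! ### Test sets in the spikes -/

/-- a polydisc inside the `n`-th spike on which `|w|` is comparable to `4 ^ n` -/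
def TT (b : ℝ) (n : ℕ) : Set (Fin 2 → ℂ) := (MeasurableEquiv.finTwoArrow (α := ℂ)) ⁻¹'
  (ball (n : ℂ) (((sp b) ^ n * (n + 1))⁻¹) ×ˢ ball (((3 / 4 * (4:ℝ) ^ n : ℝ)) : ℂ) ((4:ℝ) ^ n / 4))

lemma TT_meas (n : ℕ) : MeasurableSet (TT b n) :=
  (MeasurableEquiv.finTwoArrow (α := ℂ)).measurable (measurableSet_ball.prod measurableSet_ball)

lemma TT_bounds {n : ℕ} {x : Fin 2 → ℂ} (hx : x ∈ TT b n) :
    (4:ℝ) ^ n / 2 ≤ ‖W x‖ ∧ ‖W x‖ < (4:ℝ) ^ n := by
  have h1 : ‖W x - ((3 / 4 * (4:ℝ) ^ n : ℝ) : ℂ)‖ < (4:ℝ) ^ n / 4 := by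
    have := hx.2
    rwa [mem_ball, dist_eq_norm] at this
  have h2 : ‖((3 / 4 * (4:ℝ) ^ n : ℝ) : ℂ)‖ = 3 / 4 * (4:ℝ) ^ n := by
    rw [norm_real, Real.norm_of_nonneg (by positivity)]
  constructor
  · have := norm_sub_norm_le ((3 / 4 * (4:ℝ) ^ n : ℝ) : ℂ) (((3 / 4 * (4:ℝ) ^ n : ℝ) : ℂ) - W x)
    rw [sub_sub_cancel, h2, norm_sub_rev] at this
    linarith
  · calc ‖W x‖ = ‖(W x - ((3 / 4 * (4:ℝ) ^ n : ℝ) : ℂ)) + ((3 / 4 * (4:ℝ) ^ n : ℝ) : ℂ)‖ := by ring_nf
      _ ≤ ‖W x - ((3 / 4 * (4:ℝ) ^ n : ℝ) : ℂ)‖ + ‖((3 / 4 * (4:ℝ) ^ n : ℝ) : ℂ)‖ := norm_add_le _ _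
      _ < (4:ℝ) ^ n := by rw [h2]; linarith

lemma TT_sub (n : ℕ) : TT b n ⊆ (Om b) := by
  intro x hx
  refine PB_sub n ⟨hx.1, ?_⟩
  simp only [mem_ball, dist_zero_right]
  exact (TT_bounds hx).2

/-- volume of the test sets -/
lemma TT_volume (n : ℕ) : volume (TT b n) = ENNReal.ofReal (π ^ 2 / (16 * ((4:ℝ) ^ b) ^ n * (n + 1) ^ 2)) := by
  rw [TT, (volume_preserving_finTwoArrow ℂ).measure_preimage
    (measurableSet_ball.prod measurableSet_ball).nullMeasurableSet]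
  have hsp := sp_pos b
  rw [volume_polydisc _ _ (by positivity) (by positivity)]
  congr 1
  have h1 : (π * ((sp b) ^ n * ((n:ℝ) + 1))⁻¹ * ((4:ℝ) ^ n / 4)) ^ 2 =
      π ^ 2 / (16 * ((n:ℝ) + 1) ^ 2) * (((4:ℝ) ^ n) ^ 2 / ((sp b) ^ n) ^ 2) := by
    field_simp
    norm_num
  rw [h1, sp_pow_sq, four_pow_sq]
  field_simp

/-- the divergence for exponents `> b` -/
lemma diverge {q : ℝ} (hq : b < q) (B : ℝ) : ∃ n : ℕ,
    B < ((4:ℝ) ^ n) ^ q * (π ^ 2 / (16 * ((4:ℝ) ^ b) ^ n * (n + 1) ^ 2)) := by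
  set r : ℝ := (4:ℝ) ^ (q - b) with hr
  have hr1 : 1 < r := Real.one_lt_rpow (by norm_num) (by linarith)
  have hr0 : 0 < r := by linarith
  have h1 := tendsto_pow_const_div_const_pow_of_one_lt 2 hr1
  have h2 := (h1.comp (Filter.tendsto_add_atTop_nat 1))
  set ε : ℝ := π ^ 2 / (16 * r * (|B| + 1)) with hε
  have hε0 : 0 < ε := by positivity
  obtain ⟨n, hn⟩ := (h2.eventually (gt_mem_nhds hε0)).exists
  refine ⟨n, ?_⟩
  simp only [Function.comp_apply] at hn
  push_cast at hn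
  rw [div_lt_iff₀ (by positivity), hε] at hn
  have e1 : ((4:ℝ) ^ n) ^ q = ((4:ℝ) ^ b) ^ n * r ^ n := by
    rw [hr, four_pow, ← mul_pow, ← Real.rpow_add (by norm_num)]
    congr 2; ring
  rw [e1]
  have h3 : ((4:ℝ) ^ b) ^ n * r ^ n * (π ^ 2 / (16 * ((4:ℝ) ^ b) ^ n * (n + 1) ^ 2)) = π ^ 2 * r ^ n / (16 * (n + 1) ^ 2) := by
    field_simp
  rw [h3, lt_div_iff₀ (by positivity)]
  have h4 : ((n:ℝ) + 1) ^ 2 * (16 * (|B| + 1)) < π ^ 2 * r ^ n := by
    have h5 : π ^ 2 / (16 * r * (|B| + 1)) * r ^ (n + 1) = π ^ 2 * r ^ n / (16 * (|B| + 1)) := by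
      rw [pow_succ]
      field_simp
      try ring
    rw [h5, lt_div_iff₀ (by positivity)] at hn
    exact hn
  have h6 : B * (16 * ((n:ℝ) + 1) ^ 2) ≤ ((n:ℝ) + 1) ^ 2 * (16 * (|B| + 1)) := by
    have : B ≤ |B| + 1 := by linarith [le_abs_self B]
    nlinarith [sq_nonneg ((n:ℝ) + 1)]
  linarith

/-! ### The final computation -/


/-- value of the measure of the test set -/
noncomputable def vv (b : ℝ) (n : ℕ) : ℝ := π ^ 2 / (16 * ((4:ℝ) ^ b) ^ n * (n + 1) ^ 2)

lemma vv_pos (n : ℕ) : 0 < vv b n := by unfold vv; positivity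

lemma TT_vol (n : ℕ) : volume (TT b n) = ENNReal.ofReal (vv b n) := TT_volume n

lemma TT_restrict (n : ℕ) : (volume.restrict (Om b)).restrict (TT b n) = volume.restrict (TT b n) := by
  rw [Measure.restrict_restrict (TT_meas n), inter_eq_self_of_subset_left (TT_sub n)]

lemma W_meas : Measurable W := measurable_pi_apply 1

variable [hb2 : Fact (2 < b)] [hb4 : Fact (b < 4)]

lemma W_memLp2 : MemLp W 2 (volume.restrict (Om b)) := by
  have := W_memLp (b := b) (p := 2) (by norm_num) hb2.out.le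
  simpa using this

/-- square of the norm of `W` -/
noncomputable def II (b : ℝ) : ℝ := ∫ x in (Om b), ‖W x‖ ^ 2

lemma normsq_integrable : Integrable (fun x => ‖W x‖ ^ 2) (volume.restrict (Om b)) :=
  W_memLp2.integrable_norm_pow (by norm_num)

lemma TT_integral_lower (n : ℕ) : ((4:ℝ) ^ n / 2) ^ 2 * vv b n ≤ ∫ x in TT b n, ‖W x‖ ^ 2 := by
  have h1 : ∫ _x in TT b n, ((4:ℝ) ^ n / 2) ^ 2 = ((4:ℝ) ^ n / 2) ^ 2 * vv b n := by
    rw [setIntegral_const, measureReal_def, TT_vol, ENNReal.toReal_ofReal (vv_pos (b := b) n).le, smul_eq_mul,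
      mul_comm]
  rw [← h1]
  have hfin : volume (TT b n) ≠ ∞ := by rw [TT_vol]; exact ENNReal.ofReal_ne_top
  refine setIntegral_mono_on (integrableOn_const hfin) ?_ (TT_meas n) ?_
  · have := normsq_integrable (b := b)
    exact this.mono_measure (Measure.restrict_mono (TT_sub n) le_rfl)
  · intro x hx
    have := (TT_bounds hx).1
    gcongr

lemma II_pos : 0 < (II b) := by
  have h1 := TT_integral_lower (b := b) 0
  have h2 : ∫ x in TT b 0, ‖W x‖ ^ 2 ≤ (II b) := by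
    refine setIntegral_mono_set (normsq_integrable (b := b)) ?_ ?_
    · exact Filter.Eventually.of_forall (fun x => by positivity)
    · exact (TT_sub 0).eventuallyLE
  have h3 := vv_pos (b := b) 0
  have : 0 < ((4:ℝ) ^ 0 / 2) ^ 2 * vv b 0 := by positivity
  linarith

lemma norm_mul_integrable {f : (Fin 2 → ℂ) → ℂ} (hf : MemLp f 2 (volume.restrict (Om b))) :
    Integrable (fun z => f z * (starRingEnd ℂ) (W z)) (volume.restrict (Om b)) := by
  have h1 : MemLp (fun z => (starRingEnd ℂ) (W z)) 2 (volume.restrict (Om b)) := W_memLp2.star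
  exact MemLp.integrable_mul (p := 2) (q := 2) hf h1

/-- the coefficient of the projection -/
lemma coeff_eq {f g : (Fin 2 → ℂ) → ℂ} (hf : MemLp f 2 (volume.restrict (Om b)))
    {c : ℂ} (hc : ∀ x ∈ (Om b), g x = c * W x)
    (horth : ∫ z in (Om b), (f z - g z) * (starRingEnd ℂ) (W z) = 0) :
    c * ((II b) : ℂ) = ∫ z in (Om b), f z * (starRingEnd ℂ) (W z) := by
  have h1 : ∫ z in (Om b), (f z - g z) * (starRingEnd ℂ) (W z) =
      ∫ z in (Om b), (f z * (starRingEnd ℂ) (W z) - c * ((‖W z‖ ^ 2 : ℝ) : ℂ)) := by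
    refine setIntegral_congr_fun Om_meas ?_
    intro z hz
    simp only [hc z hz, sub_mul, mul_assoc, Complex.mul_conj']
    push_cast
    ring
  have hI2 : Integrable (fun z => c * ((‖W z‖ ^ 2 : ℝ) : ℂ)) (volume.restrict (Om b)) :=
    (normsq_integrable.ofReal (𝕜 := ℂ)).const_mul c
  rw [h1, integral_sub (norm_mul_integrable hf) hI2,
    integral_const_mul, integral_complex_ofReal] at horth
  rw [II]
  exact (sub_eq_zero.mp horth).symm

/-- the upper bound -/
lemma upper_bound {p : ℝ} (hp1 : b / (b - 1) ≤ p) (hp3 : p ≤ b) :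
    ∃ C : ℝ, ∀ f g : (Fin 2 → ℂ) → ℂ,
          MemLp f 2 (volume.restrict (Om b)) →
          MemLp f (ENNReal.ofReal p) (volume.restrict (Om b)) →
          DifferentiableOn ℂ g (Om b) →
          MemLp g 2 (volume.restrict (Om b)) →
          (∀ h : (Fin 2 → ℂ) → ℂ, DifferentiableOn ℂ h (Om b) → MemLp h 2 (volume.restrict (Om b)) →
              ∫ z in (Om b), (f z - g z) * (starRingEnd ℂ) (h z) = 0) →
          eLpNorm g (ENNReal.ofReal p) (volume.restrict (Om b))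
            ≤ ENNReal.ofReal C * eLpNorm f (ENNReal.ofReal p) (volume.restrict (Om b)) := by
  have h2b := hb2.out
  have hp1' : 1 < p := lt_of_lt_of_le (by rw [lt_div_iff₀ (by linarith)]; linarith) hp1
  set q : ℝ := p / (p - 1) with hq
  have hpos : 0 < p - 1 := by linarith
  have hq1 : 1 ≤ q := by rw [hq, le_div_iff₀ hpos]; linarith
  have hq3 : q ≤ b := by rw [hq, div_le_iff₀ hpos]; rw [div_le_iff₀ (by linarith)] at hp1; linarith
  have hpq : p.HolderConjugate q := Real.HolderConjugate.conjExponent (by linarith)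
  have hWp := W_memLp (p := p) (by linarith) hp3
  have hWq := W_memLp (p := q) hq1 hq3
  refine ⟨(eLpNorm W (ENNReal.ofReal q) (volume.restrict (Om b))).toReal *
    (eLpNorm W (ENNReal.ofReal p) (volume.restrict (Om b))).toReal / (II b), ?_⟩
  intro f g hf hfp hg hg2 horth
  obtain ⟨c, hc⟩ := bergman_Om hg hg2
  have h1 := coeff_eq hf hc (horth W W_diff W_memLp2)
  have hgn : eLpNorm g (ENNReal.ofReal p) (volume.restrict (Om b)) =
      ‖c‖ₑ * eLpNorm W (ENNReal.ofReal p) (volume.restrict (Om b)) := by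
    rw [← eLpNorm_const_smul]
    refine eLpNorm_congr_ae ?_
    filter_upwards [ae_restrict_mem Om_meas] with x hx
    rw [hc x hx]; rfl
  have h2 : ‖c‖ₑ * ENNReal.ofReal (II b) ≤ eLpNorm f (ENNReal.ofReal p) (volume.restrict (Om b)) *
      eLpNorm W (ENNReal.ofReal q) (volume.restrict (Om b)) := by
    calc ‖c‖ₑ * ENNReal.ofReal (II b) = ‖c * ((II b) : ℂ)‖ₑ := by
          rw [enorm_mul, ← ofReal_norm ((II b) : ℂ), norm_real, Real.norm_of_nonneg (II_pos (b := b)).le]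
      _ = ‖∫ z in (Om b), f z * (starRingEnd ℂ) (W z)‖ₑ := by rw [h1]
      _ ≤ ∫⁻ z in (Om b), ‖f z * (starRingEnd ℂ) (W z)‖ₑ := enorm_integral_le_lintegral_enorm _
      _ = ∫⁻ z in (Om b), (((fun z => ‖f z‖ₑ) * (fun z => ‖W z‖ₑ)) z) := by
          refine lintegral_congr ?_
          intro z
          simp only [Pi.mul_apply, enorm_mul]
          congr 1
          rw [← ofReal_norm, RCLike.norm_conj, ofReal_norm]
      _ ≤ (∫⁻ z in (Om b), ‖f z‖ₑ ^ p) ^ (1 / p) * (∫⁻ z in (Om b), ‖W z‖ₑ ^ q) ^ (1 / q) :=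
          ENNReal.lintegral_mul_le_Lp_mul_Lq _ hpq hf.aestronglyMeasurable.enorm
            W_meas.aestronglyMeasurable.enorm
      _ = eLpNorm f (ENNReal.ofReal p) (volume.restrict (Om b)) *
            eLpNorm W (ENNReal.ofReal q) (volume.restrict (Om b)) := by
          rw [eLpNorm_eq_lintegral_rpow_enorm_toReal (by simp; linarith) ENNReal.ofReal_ne_top,
            eLpNorm_eq_lintegral_rpow_enorm_toReal (by simp; linarith) ENNReal.ofReal_ne_top,
            ENNReal.toReal_ofReal (by linarith), ENNReal.toReal_ofReal (by linarith)]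
  have hII : ENNReal.ofReal (II b) ≠ 0 := by simpa using (II_pos (b := b))
  have hII' : ENNReal.ofReal (II b) ≠ ∞ := ENNReal.ofReal_ne_top
  have h3 : ‖c‖ₑ ≤ eLpNorm f (ENNReal.ofReal p) (volume.restrict (Om b)) *
      eLpNorm W (ENNReal.ofReal q) (volume.restrict (Om b)) / ENNReal.ofReal (II b) :=
    (ENNReal.le_div_iff_mul_le (Or.inl hII) (Or.inl hII')).mpr h2
  rw [hgn]
  calc ‖c‖ₑ * eLpNorm W (ENNReal.ofReal p) (volume.restrict (Om b))
      ≤ (eLpNorm f (ENNReal.ofReal p) (volume.restrict (Om b)) *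
      eLpNorm W (ENNReal.ofReal q) (volume.restrict (Om b)) / ENNReal.ofReal (II b)) *
        eLpNorm W (ENNReal.ofReal p) (volume.restrict (Om b)) := by gcongr
    _ = ENNReal.ofReal ((eLpNorm W (ENNReal.ofReal q) (volume.restrict (Om b))).toReal *
    (eLpNorm W (ENNReal.ofReal p) (volume.restrict (Om b))).toReal / (II b)) *
      eLpNorm f (ENNReal.ofReal p) (volume.restrict (Om b)) := by
        rw [ENNReal.ofReal_div_of_pos (II_pos (b := b)), ENNReal.ofReal_mul ENNReal.toReal_nonneg,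
          ENNReal.ofReal_toReal hWp.eLpNorm_ne_top, ENNReal.ofReal_toReal hWq.eLpNorm_ne_top]
        simp only [div_eq_mul_inv]
        ring

/-- the coefficient of the projection of `W` restricted to the `n`-th test set -/
noncomputable def cc (b : ℝ) (n : ℕ) : ℝ := (∫ x in TT b n, ‖W x‖ ^ 2) / (II b)

lemma cc_lower (n : ℕ) : ((4:ℝ) ^ n / 2) ^ 2 * vv b n / (II b) ≤ cc b n := by
  unfold cc
  have := (II_pos (b := b))
  gcongr
  exact TT_integral_lower n

/-- consequence of boundedness, tested on the `n`-th test set -/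
lemma test_ineq {p : ℝ} (hp : 1 < p) {C : ℝ}
    (hC : ∀ f g : (Fin 2 → ℂ) → ℂ,
          MemLp f 2 (volume.restrict (Om b)) →
          MemLp f (ENNReal.ofReal p) (volume.restrict (Om b)) →
          DifferentiableOn ℂ g (Om b) →
          MemLp g 2 (volume.restrict (Om b)) →
          (∀ h : (Fin 2 → ℂ) → ℂ, DifferentiableOn ℂ h (Om b) → MemLp h 2 (volume.restrict (Om b)) →
              ∫ z in (Om b), (f z - g z) * (starRingEnd ℂ) (h z) = 0) →
          eLpNorm g (ENNReal.ofReal p) (volume.restrict (Om b))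
            ≤ ENNReal.ofReal C * eLpNorm f (ENNReal.ofReal p) (volume.restrict (Om b))) (n : ℕ) :
    ENNReal.ofReal (((4:ℝ) ^ n / 2) ^ 2 * vv b n / (II b)) *
        eLpNorm W (ENNReal.ofReal p) (volume.restrict (Om b)) ≤
      ENNReal.ofReal C * ENNReal.ofReal ((4:ℝ) ^ n * vv b n ^ (1 / p)) := by
  set f : (Fin 2 → ℂ) → ℂ := (TT b n).indicator W with hf
  set g : (Fin 2 → ℂ) → ℂ := (cc b n : ℂ) • W with hg
  have hfin : IsFiniteMeasure ((volume.restrict (Om b)).restrict (TT b n)) := by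
    rw [TT_restrict]
    refine ⟨?_⟩
    rw [Measure.restrict_apply_univ, TT_vol]
    exact ENNReal.ofReal_lt_top
  have hbd : ∀ᵐ x ∂((volume.restrict (Om b)).restrict (TT b n)), ‖W x‖ ≤ (4:ℝ) ^ n := by
    filter_upwards [ae_restrict_mem (TT_meas n)] with x hx
    exact (TT_bounds hx).2.le
  have hfmem : ∀ r : ℝ≥0∞, MemLp f r (volume.restrict (Om b)) := by
    intro r
    rw [hf, memLp_indicator_iff_restrict (TT_meas n)]
    exact MemLp.of_bound W_meas.aestronglyMeasurable _ hbd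
  have hgW : ∀ z, g z = (cc b n : ℂ) * W z := fun z => rfl
  have hgd : DifferentiableOn ℂ g (Om b) := W_diff.const_smul _
  have hg2 : MemLp g 2 (volume.restrict (Om b)) := W_memLp2.const_smul _
  have horth : ∀ h : (Fin 2 → ℂ) → ℂ, DifferentiableOn ℂ h (Om b) → MemLp h 2 (volume.restrict (Om b)) →
              ∫ z in (Om b), (f z - g z) * (starRingEnd ℂ) (h z) = 0 := by
    intro h hh hh2
    obtain ⟨c, hc⟩ := bergman_Om hh hh2
    have h1 : ∫ z in (Om b), (f z - g z) * (starRingEnd ℂ) (h z) =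
        ∫ z in (Om b), ((starRingEnd ℂ) c * ((((TT b n).indicator (fun z => ‖W z‖ ^ 2) z : ℝ)) : ℂ) -
          (starRingEnd ℂ) c * (cc b n : ℂ) * ((‖W z‖ ^ 2 : ℝ) : ℂ)) := by
      refine setIntegral_congr_fun Om_meas ?_
      intro z hz
      simp only [hc z hz, hgW, hf, map_mul]
      by_cases hzT : z ∈ TT b n
      · rw [indicator_of_mem hzT, indicator_of_mem hzT]
        push_cast
        rw [← Complex.mul_conj']
        ring
      · rw [indicator_of_notMem hzT, indicator_of_notMem hzT]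
        push_cast
        rw [← Complex.mul_conj']
        ring
    have hI1 : Integrable ((TT b n).indicator (fun z => ‖W z‖ ^ 2)) (volume.restrict (Om b)) :=
      normsq_integrable.indicator (TT_meas n)
    have hI1' : Integrable (fun z => (starRingEnd ℂ) c *
        ((((TT b n).indicator (fun z => ‖W z‖ ^ 2) z : ℝ)) : ℂ)) (volume.restrict (Om b)) :=
      (hI1.ofReal (𝕜 := ℂ)).const_mul _
    have hI2' : Integrable (fun z => (starRingEnd ℂ) c * (cc b n : ℂ) * ((‖W z‖ ^ 2 : ℝ) : ℂ))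
        (volume.restrict (Om b)) :=
      (normsq_integrable.ofReal (𝕜 := ℂ)).const_mul _
    rw [h1, integral_sub hI1' hI2', integral_const_mul, integral_const_mul, integral_complex_ofReal,
      integral_complex_ofReal, integral_indicator (TT_meas n), TT_restrict]
    change _ - _ * ((II b) : ℂ) = 0
    rw [cc]
    have : ((II b) : ℂ) ≠ 0 := by exact_mod_cast (II_pos (b := b)).ne'
    push_cast
    field_simp
    ring
  have h1 := hC f g (hfmem 2) (hfmem _) hgd hg2 horth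
  have h2 : eLpNorm g (ENNReal.ofReal p) (volume.restrict (Om b)) =
      ENNReal.ofReal (cc b n) * eLpNorm W (ENNReal.ofReal p) (volume.restrict (Om b)) := by
    rw [hg, eLpNorm_const_smul]
    congr 1
    rw [← ofReal_norm, norm_real, Real.norm_of_nonneg]
    refine le_trans ?_ (cc_lower n)
    have := (II_pos (b := b))
    have := vv_pos (b := b) n
    positivity
  have h3 : eLpNorm f (ENNReal.ofReal p) (volume.restrict (Om b)) ≤
      ENNReal.ofReal ((4:ℝ) ^ n * vv b n ^ (1 / p)) := by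
    rw [hf, eLpNorm_indicator_eq_eLpNorm_restrict (TT_meas n)]
    refine (eLpNorm_le_of_ae_bound hbd).trans (le_of_eq ?_)
    rw [TT_restrict, Measure.restrict_apply_univ, TT_vol, ENNReal.toReal_ofReal (by linarith),
      ENNReal.ofReal_rpow_of_pos (vv_pos (b := b) n), ← ENNReal.ofReal_mul (by have := vv_pos (b := b) n; positivity),
      mul_comm, one_div]
  calc ENNReal.ofReal (((4:ℝ) ^ n / 2) ^ 2 * vv b n / (II b)) *
        eLpNorm W (ENNReal.ofReal p) (volume.restrict (Om b))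
      ≤ ENNReal.ofReal (cc b n) * eLpNorm W (ENNReal.ofReal p) (volume.restrict (Om b)) := by
        gcongr
        exact cc_lower n
    _ ≤ _ := by
        rw [← h2]
        exact h1.trans (by gcongr)

/-- lower bound for the `L^p` norm of `W` -/
lemma W_norm_lower {p : ℝ} (hp : 1 < p) (n : ℕ) :
    ENNReal.ofReal ((4:ℝ) ^ n / 2 * vv b n ^ (1 / p)) ≤
      eLpNorm W (ENNReal.ofReal p) (volume.restrict (Om b)) := by
  have h1 : eLpNorm W (ENNReal.ofReal p) (volume.restrict (TT b n)) ≤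
      eLpNorm W (ENNReal.ofReal p) (volume.restrict (Om b)) :=
    eLpNorm_mono_measure _ (Measure.restrict_mono (TT_sub n) le_rfl)
  refine le_trans ?_ h1
  have h2 : eLpNorm (fun _ : Fin 2 → ℂ => ((4:ℝ) ^ n / 2 : ℝ)) (ENNReal.ofReal p) (volume.restrict (TT b n)) ≤
      eLpNorm W (ENNReal.ofReal p) (volume.restrict (TT b n)) := by
    refine eLpNorm_mono_ae ?_
    filter_upwards [ae_restrict_mem (TT_meas n)] with x hx
    rw [Real.norm_of_nonneg (by positivity)]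
    exact (TT_bounds hx).1
  refine le_trans (le_of_eq ?_) h2
  rw [eLpNorm_const' _ (by simp; linarith) ENNReal.ofReal_ne_top, Measure.restrict_apply_univ, TT_vol,
    ENNReal.toReal_ofReal (by linarith), ENNReal.ofReal_rpow_of_pos (vv_pos (b := b) n), ← ofReal_norm,
    Real.norm_of_nonneg (by positivity), ← ENNReal.ofReal_mul (by positivity)]

lemma W_norm_top {p : ℝ} (hp : b < p) :
    eLpNorm W (ENNReal.ofReal p) (volume.restrict (Om b)) = ∞ := by
  have h2b := hb2.out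
  by_contra hne
  set N : ℝ := (eLpNorm W (ENNReal.ofReal p) (volume.restrict (Om b))).toReal with hN
  have hN0 : 0 ≤ N := ENNReal.toReal_nonneg
  obtain ⟨n, hn⟩ := diverge hp ((2 * N) ^ p)
  have h1 := W_norm_lower (b := b) (p := p) (by linarith) n
  have hv := vv_pos (b := b) n
  rw [← ENNReal.ofReal_toReal hne, ENNReal.ofReal_le_ofReal_iff hN0] at h1
  have h2 : (4:ℝ) ^ n * vv b n ^ (1 / p) ≤ 2 * N := by linarith
  have h3 : ((4:ℝ) ^ n * vv b n ^ (1 / p)) ^ p ≤ (2 * N) ^ p :=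
    Real.rpow_le_rpow (by positivity) h2 (by linarith)
  rw [Real.mul_rpow (by positivity) (by positivity), ← Real.rpow_mul hv.le,
    one_div_mul_cancel (by linarith), Real.rpow_one] at h3
  exact absurd (lt_of_lt_of_le hn h3) (lt_irrefl _)

/-- unboundedness outside `[3/2, 3]` -/
lemma not_bounded {p : ℝ} (hp : 1 < p) {C : ℝ}
    (hC : ∀ f g : (Fin 2 → ℂ) → ℂ,
          MemLp f 2 (volume.restrict (Om b)) →
          MemLp f (ENNReal.ofReal p) (volume.restrict (Om b)) →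
          DifferentiableOn ℂ g (Om b) →
          MemLp g 2 (volume.restrict (Om b)) →
          (∀ h : (Fin 2 → ℂ) → ℂ, DifferentiableOn ℂ h (Om b) → MemLp h 2 (volume.restrict (Om b)) →
              ∫ z in (Om b), (f z - g z) * (starRingEnd ℂ) (h z) = 0) →
          eLpNorm g (ENNReal.ofReal p) (volume.restrict (Om b))
            ≤ ENNReal.ofReal C * eLpNorm f (ENNReal.ofReal p) (volume.restrict (Om b))) :
    b / (b - 1) ≤ p ∧ p ≤ b := by
  have hII := (II_pos (b := b))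
  have hp3 : p ≤ b := by
    by_contra hp3
    push Not at hp3
    have h1 := test_ineq hp hC 0
    rw [W_norm_top hp3, ENNReal.mul_top] at h1
    · have h2 : ENNReal.ofReal C * ENNReal.ofReal ((4:ℝ) ^ 0 * vv b 0 ^ (1 / p)) < ∞ :=
        ENNReal.mul_lt_top ENNReal.ofReal_lt_top ENNReal.ofReal_lt_top
      exact absurd h2 (not_lt.mpr h1)
    · have hv := vv_pos (b := b) 0
      simp only [ne_eq, ENNReal.ofReal_eq_zero, not_le]
      positivity
  refine ⟨?_, hp3⟩
  by_contra hp32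
  push Not at hp32
  have hWp := W_memLp (p := p) hp.le hp3
  set N : ℝ := (eLpNorm W (ENNReal.ofReal p) (volume.restrict (Om b))).toReal with hN
  have hNeq : eLpNorm W (ENNReal.ofReal p) (volume.restrict (Om b)) = ENNReal.ofReal N :=
    (ENNReal.ofReal_toReal hWp.eLpNorm_ne_top).symm
  have hN0 : 0 < N := by
    have h1 := W_norm_lower (b := b) hp 0
    rw [hNeq] at h1
    have hv := vv_pos (b := b) 0
    have h2 : 0 < (4:ℝ) ^ 0 / 2 * vv b 0 ^ (1 / p) := by positivity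
    by_contra hneg
    push Not at hneg
    rw [ENNReal.ofReal_of_nonpos hneg] at h1
    have : ENNReal.ofReal ((4:ℝ) ^ 0 / 2 * vv b 0 ^ (1 / p)) = 0 := le_antisymm h1 bot_le
    rw [ENNReal.ofReal_eq_zero] at this
    linarith
  set q : ℝ := p / (p - 1) with hq
  have hpos : 0 < p - 1 := by linarith
  have hq3 : b < q := by rw [hq, lt_div_iff₀ hpos]; rw [lt_div_iff₀ (by linarith)] at hp32; linarith
  set C' : ℝ := max C 0 with hC'
  have hC'0 : 0 ≤ C' := le_max_right _ _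
  set B : ℝ := 4 * (II b) * C' / N with hB
  obtain ⟨n, hn⟩ := diverge hq3 (B ^ q)
  have hv := vv_pos (b := b) n
  have h1 := test_ineq hp hC n
  rw [hNeq, ← ENNReal.ofReal_mul (by positivity)] at h1
  have h2 : ENNReal.ofReal C ≤ ENNReal.ofReal C' := ENNReal.ofReal_le_ofReal (le_max_left _ _)
  have h3 : ENNReal.ofReal (((4:ℝ) ^ n / 2) ^ 2 * vv b n / (II b) * N) ≤
      ENNReal.ofReal (C' * ((4:ℝ) ^ n * vv b n ^ (1 / p))) := by
    rw [ENNReal.ofReal_mul hC'0]
    exact h1.trans (by gcongr)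
  rw [ENNReal.ofReal_le_ofReal_iff (by positivity)] at h3
  have h4 : (4:ℝ) ^ n * vv b n ^ (1 / q) ≤ B := by
    have e1 : vv b n = vv b n ^ (1 / p) * vv b n ^ (1 / q) := by
      rw [← Real.rpow_add hv]
      have : 1 / p + 1 / q = 1 := by
        rw [hq]; field_simp; ring
      rw [this, Real.rpow_one]
    have e2 : ((4:ℝ) ^ n / 2) ^ 2 * vv b n / (II b) * N =
        ((4:ℝ) ^ n * vv b n ^ (1 / q)) * (((4:ℝ) ^ n * vv b n ^ (1 / p)) * N / (4 * (II b))) := by
      nth_rewrite 1 [e1]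
      field_simp
      ring
    have e3 : C' * ((4:ℝ) ^ n * vv b n ^ (1 / p)) = B * (((4:ℝ) ^ n * vv b n ^ (1 / p)) * N / (4 * (II b))) := by
      rw [hB]
      field_simp
    rw [e2, e3] at h3
    exact le_of_mul_le_mul_right h3 (by positivity)
  have h5 : ((4:ℝ) ^ n * vv b n ^ (1 / q)) ^ q ≤ B ^ q :=
    Real.rpow_le_rpow (by positivity) h4 (by linarith)
  rw [Real.mul_rpow (by positivity) (by positivity), ← Real.rpow_mul hv.le,
    one_div_mul_cancel (by linarith), Real.rpow_one] at h5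
  exact absurd (lt_of_lt_of_le hn h5) (lt_irrefl _)


end Pool.Agent.Lib.MP_6c36f4_an.Fam
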